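import Pool.Agent.Helper79.All.DGL

/-! Project ALLSYSTEMS: the closed form of the empty side (helper79).
`d (3 d + 10 M) ≤ 3 ∑ m_i²`, `m_i ≤ M`. -/

set_option autoImplicit false

namespace Pool.Agent.Helper79.All.CLE

open Finset Pool.Agent.Helper1.All

/-- A minimal top segment `G` of `S` with `d ≤ 3 * sum`; `i0` is a minimum of `G`. -/
theorem exTop {ι : Type*} [DecidableEq ι] (S : Finset ι) (w : ι → ℕ) (d : ℕ)
    (hS : d ≤ 3 * ∑ i ∈ S, w i) (hd : 1 ≤ d) :
    ∃ G ⊆ S, ∃ i0 ∈ G, d ≤ 3 * ∑ i ∈ G, w i ∧ 3 * ∑ i ∈ G.erase i0, w i < d ∧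
      (∀ i ∈ G, w i0 ≤ w i) ∧ ∀ i ∈ G, ∀ j ∈ S \ G, w j ≤ w i := by
  classical
  have hne : (S.powerset.filter (fun G => d ≤ 3 * ∑ i ∈ G, w i ∧
      ∀ i ∈ G, ∀ j ∈ S \ G, w j ≤ w i)).Nonempty := by
    refine ⟨S, ?_⟩
    simp only [mem_filter, mem_powerset, subset_refl, true_and]
    refine ⟨hS, ?_⟩
    intro i _ j hj
    simp at hj
  obtain ⟨G, hG, hmin⟩ := exists_min_image _ (fun G : Finset ι => G.card) hne
  simp only [mem_filter, mem_powerset] at hG
  obtain ⟨hGS, hGh, hGu⟩ := hG
  have hGne : G.Nonempty := by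
    rcases Finset.eq_empty_or_nonempty G with h0 | h0
    · subst h0
      simp at hGh
      omega
    · exact h0
  obtain ⟨i0, hi0, hi0min⟩ := exists_min_image G w hGne
  refine ⟨G, hGS, i0, hi0, hGh, ?_, hi0min, hGu⟩
  by_contra hcon
  push Not at hcon
  have hmem : G.erase i0 ∈ S.powerset.filter (fun G => d ≤ 3 * ∑ i ∈ G, w i ∧
      ∀ i ∈ G, ∀ j ∈ S \ G, w j ≤ w i) := by
    simp only [mem_filter, mem_powerset]
    refine ⟨(erase_subset _ _).trans hGS, hcon, ?_⟩
    intro i hi j hj
    have hiG : i ∈ G := mem_of_mem_erase hi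
    rw [mem_sdiff] at hj
    by_cases hjG : j ∈ G
    · have : j = i0 := by
        by_contra hne
        exact hj.2 (mem_erase.mpr ⟨hne, hjG⟩)
      rw [this]
      exact hi0min i hiG
    · exact hGu i hiG j (mem_sdiff.mpr ⟨hj.1, hjG⟩)
  have h1 := hmin _ hmem
  have h2 : (G.erase i0).card < G.card := card_erase_lt_of_mem hi0
  omega

/-- The greedy groups, empty side. -/
theorem greedyE {ι : Type*} [DecidableEq ι] (w : ι → ℕ) (d mm : ℕ) (hd : 1 ≤ d) :
    ∀ (k : ℕ) (S : Finset ι) (T : ℕ), S.card ≤ k → (∀ i ∈ S, w i ≤ T) → T ≤ mm →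
      ∃ (b : ℕ) (g : ι → Option (Fin b)) (mn : Fin b → ℕ),
        (∀ i, i ∉ S → g i = none) ∧ (∀ i c, g i = some c → mn c ≤ w i) ∧
        (∀ c, d ≤ 3 * ∑ i ∈ S with g i = some c, w i) ∧
        3 * ∑ i ∈ S, w i ^ 2 ≤ d * (T + ∑ c, mn c) + 3 * mm * ∑ c, mn c ∧
        (1 ≤ ∑ i ∈ S, w i →
          3 * ∑ i ∈ S, w i ^ 2 < d * (T + ∑ c, mn c) + 3 * mm * ∑ c, mn c) := by
  classical
  intro k
  induction k with
  | zero =>
    intro S T hk _ _
    have hS : S = ∅ := by
      rw [← Finset.card_eq_zero]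
      omega
    subst hS
    refine ⟨0, fun _ => none, fun c => c.elim0, fun _ _ => rfl, ?_, fun c => c.elim0, ?_, ?_⟩
    · intro i c hc
      exact c.elim0
    · simp
    · simp
  | succ k ih =>
    intro S T hk hT hTm
    have hsq : ∀ G ⊆ S, ∑ i ∈ G, w i ^ 2 ≤ T * ∑ i ∈ G, w i := by
      intro G hG
      rw [Finset.mul_sum]
      apply Finset.sum_le_sum
      intro i hi
      rw [sq]
      exact Nat.mul_le_mul_right _ (hT i (hG hi))
    have hTpos : 1 ≤ ∑ i ∈ S, w i → 1 ≤ T := by
      intro h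
      by_contra hcon
      have hT0 : T = 0 := by omega
      have : ∑ i ∈ S, w i = 0 := by
        apply Finset.sum_eq_zero
        intro i hi
        have := hT i hi
        omega
      omega
    by_cases hlt : 3 * ∑ i ∈ S, w i < d
    · refine ⟨0, fun _ => none, fun c => c.elim0, fun _ _ => rfl, ?_, fun c => c.elim0, ?_, ?_⟩
      · intro i c hc
        exact c.elim0
      · simp only [univ_eq_empty, sum_empty, add_zero, Nat.mul_zero]
        have h1 := hsq S subset_rfl
        calc 3 * ∑ i ∈ S, w i ^ 2 ≤ 3 * (T * ∑ i ∈ S, w i) := Nat.mul_le_mul_left 3 h1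
          _ = (3 * ∑ i ∈ S, w i) * T := by ring
          _ ≤ d * T := Nat.mul_le_mul_right _ (by omega)
      · intro hpos
        simp only [univ_eq_empty, sum_empty, add_zero, Nat.mul_zero]
        have h1 := hsq S subset_rfl
        calc 3 * ∑ i ∈ S, w i ^ 2 ≤ 3 * (T * ∑ i ∈ S, w i) := Nat.mul_le_mul_left 3 h1
          _ = (3 * ∑ i ∈ S, w i) * T := by ring
          _ < d * T := Nat.mul_lt_mul_of_pos_right hlt (hTpos hpos)
    · push Not at hlt
      have hpos : 1 ≤ ∑ i ∈ S, w i := by omega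
      obtain ⟨G, hGS, i0, hi0, hGh, hGlt, hi0min, hGu⟩ := exTop S w d hlt hd
      have hcard : (S \ G).card ≤ k := by
        have h1 : (S \ G).card < S.card := by
          apply Finset.card_lt_card
          refine ⟨sdiff_subset, ?_⟩
          intro hsub
          have := hsub (hGS hi0)
          rw [mem_sdiff] at this
          exact this.2 hi0
        omega
      obtain ⟨b, g, mn, h1, h2, h3, h4, _⟩ := ih (S \ G) (w i0) hcard
        (fun j hj => hGu i0 hi0 j hj) (le_trans (hT i0 (hGS hi0)) hTm)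
      have hmain : 3 * ∑ i ∈ S, w i ^ 2 <
          d * (T + (∑ c, mn c + w i0)) + 3 * mm * (∑ c, mn c + w i0) := by
        have h5 : ∑ i ∈ S, w i ^ 2 = ∑ i ∈ S \ G, w i ^ 2 + ∑ i ∈ G, w i ^ 2 :=
          (Finset.sum_sdiff hGS).symm
        have h5' : ∑ i ∈ G, w i ^ 2 = ∑ i ∈ G.erase i0, w i ^ 2 + w i0 ^ 2 :=
          (Finset.sum_erase_add _ _ hi0).symm
        have h6 := hsq (G.erase i0) ((erase_subset _ _).trans hGS)
        have h7 : 3 * ∑ i ∈ G.erase i0, w i ^ 2 < d * T := by
          calc 3 * ∑ i ∈ G.erase i0, w i ^ 2 ≤ 3 * (T * ∑ i ∈ G.erase i0, w i) :=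
                Nat.mul_le_mul_left 3 h6
            _ = (3 * ∑ i ∈ G.erase i0, w i) * T := by ring
            _ < d * T := Nat.mul_lt_mul_of_pos_right hGlt (hTpos hpos)
        have h8 : 3 * w i0 ^ 2 ≤ 3 * mm * w i0 := by
          rw [sq, Nat.mul_assoc]
          exact Nat.mul_le_mul_left 3 (Nat.mul_le_mul_right _ ((hT i0 (hGS hi0)).trans hTm))
        rw [h5, h5']
        calc 3 * (∑ i ∈ S \ G, w i ^ 2 + (∑ i ∈ G.erase i0, w i ^ 2 + w i0 ^ 2))
            = 3 * ∑ i ∈ S \ G, w i ^ 2 + 3 * ∑ i ∈ G.erase i0, w i ^ 2 + 3 * w i0 ^ 2 := by ring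
          _ < (d * (w i0 + ∑ c, mn c) + 3 * mm * ∑ c, mn c) + d * T + 3 * mm * w i0 := by omega
          _ = _ := by ring
      refine ⟨b + 1, fun i => if i ∈ G then some (Fin.last b) else (g i).map Fin.castSucc,
        Fin.snoc (α := fun _ => ℕ) mn (w i0), ?_, ?_, ?_, ?_, ?_⟩
      · intro i hi
        have hiG : i ∉ G := fun h => hi (hGS h)
        simp only [hiG, if_false]
        rw [h1 i (fun h => hi (mem_sdiff.mp h).1)]
        rfl
      · intro i c hc
        by_cases hiG : i ∈ G
        · simp only [hiG, if_true, Option.some.injEq] at hc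
          subst hc
          rw [Fin.snoc_last]
          exact hi0min i hiG
        · simp only [hiG, if_false, Option.map_eq_some_iff] at hc
          obtain ⟨c', hc', rfl⟩ := hc
          rw [Fin.snoc_castSucc]
          exact h2 i c' hc'
      · intro c
        refine Fin.lastCases ?_ (fun c' => ?_) c
        · refine hGh.trans (Nat.mul_le_mul_left 3
            (Finset.sum_le_sum_of_subset_of_nonneg ?_ (fun _ _ _ => Nat.zero_le _)))
          intro i hi
          simp only [mem_filter, hi, if_true, and_true]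
          exact hGS hi
        · refine (h3 c').trans (Nat.mul_le_mul_left 3
            (Finset.sum_le_sum_of_subset_of_nonneg ?_ (fun _ _ _ => Nat.zero_le _)))
          intro i hi
          simp only [mem_filter, mem_sdiff] at hi
          simp only [mem_filter, hi.1.2, if_false, hi.1.1, true_and, hi.2, Option.map_some]
      · rw [Fin.sum_univ_castSucc]
        simp only [Fin.snoc_castSucc, Fin.snoc_last]
        exact hmain.le
      · intro _
        rw [Fin.sum_univ_castSucc]
        simp only [Fin.snoc_castSucc, Fin.snoc_last]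
        exact hmain

/-- The greedy groups as in S_GRE, with the better constant. -/
theorem gre (n d M : ℕ) (m : Fin n → ℕ) (hm : ∀ i, m i ≤ M) (hpos : 1 ≤ ∑ i, m i)
    (h : d * (3 * d + 10 * M) ≤ 3 * ∑ i, m i ^ 2) :
    ∃ (n' : ℕ) (m' g : Fin n' → ℕ) (ι : Fin n' → Fin n), 0 < n' ∧ Function.Injective ι ∧
      (∀ i, m' i = m (ι i)) ∧ 3 * (d : ℝ) < BG m' g ∧ (d : ℝ) ^ 2 * RG g < BG m' g ^ 2 := by
  classical
  rcases Nat.eq_zero_or_pos d with hd0 | hd
  · subst hd0
    have hex : ∃ i, 1 ≤ m i := by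
      by_contra hcon
      push Not at hcon
      have : ∑ i, m i = 0 := by
        apply Finset.sum_eq_zero
        intro i _
        have := hcon i
        omega
      omega
    obtain ⟨i, hi⟩ := hex
    have hBG : BG (fun _ : Fin 1 => m i) (fun _ : Fin 1 => 0) = m i := by
      have h1 : (Finset.univ : Finset (Fin 1)).image (fun _ => (0 : ℕ)) = {0} := by
        ext x
        simp
      unfold BG
      rw [h1, Finset.sum_singleton]
      simp [gr]
    have hi' : (1 : ℝ) ≤ m i := by exact_mod_cast hi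
    refine ⟨1, fun _ => m i, fun _ => 0, fun _ => i, one_pos, ?_, fun _ => rfl, ?_, ?_⟩
    · intro a b _
      exact Subsingleton.elim a b
    · rw [hBG]
      push_cast
      linarith
    · rw [hBG]
      push_cast
      nlinarith
  obtain ⟨b, g, mn, _, h2, h3, _, h5⟩ := greedyE m d M hd _ Finset.univ M
    le_rfl (fun i _ => hm i) le_rfl
  have h6 := h5 hpos
  have h7 : 3 * d < ∑ c, mn c := by
    have h8 : (d + 3 * M) * (3 * d) < (d + 3 * M) * ∑ c, mn c := by
      have e1 : d * (3 * d + 10 * M) = d * M + (d + 3 * M) * (3 * d) := by ring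
      have e2 : d * (M + ∑ c, mn c) + 3 * M * ∑ c, mn c = d * M + (d + 3 * M) * ∑ c, mn c := by
        ring
      omega
    exact Nat.lt_of_mul_lt_mul_left h8
  set A : Fin b → Finset (Fin n) := fun c => Finset.univ.filter (fun i => g i = some c) with hA
  have hAne : ∀ c, 0 < (A c).card := by
    intro c
    rw [Finset.card_pos]
    rcases Finset.eq_empty_or_nonempty (A c) with h0 | h0
    · have := h3 c
      rw [show (Finset.univ.filter (fun i => g i = some c)) = ∅ from h0] at this
      simp at this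
      omega
    · exact h0
  set S' : Finset (Fin n) := Finset.univ.filter (fun i => (g i).isSome) with hS'
  set ι : Fin S'.card → Fin n := fun l => (S'.equivFin.symm l).1 with hι
  have hιinj : Function.Injective ι := by
    intro a b hab
    exact S'.equivFin.symm.injective (Subtype.ext hab)
  have hιS : ∀ l, (g (ι l)).isSome := by
    intro l
    have h10 : ι l ∈ S' := (S'.equivFin.symm l).2
    exact (Finset.mem_filter.mp h10).2
  have hιsurj : ∀ i, (g i).isSome → ∃ l, ι l = i := by
    intro i hi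
    have hmem : i ∈ S' := by
      rw [hS', Finset.mem_filter]
      exact ⟨mem_univ _, hi⟩
    refine ⟨S'.equivFin ⟨i, hmem⟩, ?_⟩
    rw [hι]
    simp
  set g' : Fin S'.card → ℕ := fun l => (((g (ι l)).get (hιS l) : Fin b) : ℕ) with hg'
  have hgr : ∀ c : Fin b, (gr g' (c : ℕ)).image ι = A c := by
    intro c
    ext i
    simp only [gr, hA, mem_image, mem_filter, mem_univ, true_and]
    constructor
    · rintro ⟨l, hl, rfl⟩
      have h10 : (g (ι l)).get (hιS l) = c := Fin.val_injective hl
      rw [← h10, Option.some_get]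
    · intro hi
      obtain ⟨l, hl⟩ := hιsurj i (by rw [hi]; rfl)
      refine ⟨l, ?_, hl⟩
      have h11 : g (ι l) = some c := by rw [hl]; exact hi
      have h12 : (g (ι l)).get (hιS l) = c := by
        apply Option.some_injective
        rw [Option.some_get, h11]
      rw [hg']
      simp only [h12]
  have hcard : ∀ c : Fin b, (gr g' (c : ℕ)).card = (A c).card := by
    intro c
    rw [← hgr c, Finset.card_image_of_injective _ hιinj]
  have hsum : ∀ c : Fin b, ∑ l ∈ gr g' (c : ℕ), m (ι l) = ∑ i ∈ A c, m i := by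
    intro c
    rw [← hgr c, Finset.sum_image (fun a _ b _ hab => hιinj hab)]
  have himg : Finset.univ.image g' = Finset.univ.image (fun c : Fin b => (c : ℕ)) := by
    ext x
    simp only [mem_image, mem_univ, true_and]
    constructor
    · rintro ⟨l, rfl⟩
      exact ⟨(g (ι l)).get (hιS l), rfl⟩
    · rintro ⟨c, rfl⟩
      have := hAne c
      rw [← hcard c, Finset.card_pos] at this
      obtain ⟨l, hl⟩ := this
      simp only [gr, mem_filter, mem_univ, true_and] at hl
      exact ⟨l, hl⟩
  have hBG : BG (fun l => m (ι l)) g' =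
      ∑ c : Fin b, ((∑ i ∈ A c, m i : ℕ) : ℝ) / ((A c).card : ℝ) := by
    unfold BG
    rw [himg, Finset.sum_image (fun a _ b _ hab => Fin.val_injective hab)]
    apply Finset.sum_congr rfl
    intro c _
    rw [hcard c, hsum c]
  have hRG : RG g' = ∑ c : Fin b, 1 / ((A c).card : ℝ) := by
    unfold RG
    rw [himg, Finset.sum_image (fun a _ b _ hab => Fin.val_injective hab)]
    apply Finset.sum_congr rfl
    intro c _
    rw [hcard c]
  have h13 : ((∑ c, mn c : ℕ) : ℝ) ≤ BG (fun l => m (ι l)) g' := by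
    rw [hBG, Nat.cast_sum]
    apply Finset.sum_le_sum
    intro c _
    have hc : (0 : ℝ) < (A c).card := by exact_mod_cast hAne c
    rw [le_div_iff₀ hc]
    have : mn c * (A c).card ≤ ∑ i ∈ A c, m i := by
      rw [mul_comm, ← smul_eq_mul]
      apply Finset.card_nsmul_le_sum
      intro i hi
      simp only [hA, mem_filter, mem_univ, true_and] at hi
      exact h2 i c hi
    exact_mod_cast this
  have h14 : 3 * (d : ℝ) < BG (fun l => m (ι l)) g' := by
    have : ((3 * d : ℕ) : ℝ) < ((∑ c, mn c : ℕ) : ℝ) := by exact_mod_cast h7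
    push_cast at this h13
    linarith
  have h15 : (d : ℝ) * RG g' ≤ 3 * BG (fun l => m (ι l)) g' := by
    rw [hBG, hRG, Finset.mul_sum, Finset.mul_sum]
    apply Finset.sum_le_sum
    intro c _
    have hc : (0 : ℝ) < (A c).card := by exact_mod_cast hAne c
    rw [← mul_div_assoc, ← mul_div_assoc, mul_one]
    apply div_le_div_of_nonneg_right _ hc.le
    have := h3 c
    exact_mod_cast this
  have hn' : 0 < S'.card := by
    rw [Finset.card_pos]
    rcases Finset.eq_empty_or_nonempty S' with h0 | h0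
    · exfalso
      have h20 : b = 0 := by
        rcases Nat.eq_zero_or_pos b with h21 | h21
        · exact h21
        · exfalso
          have h22 := hAne ⟨0, h21⟩
          rw [Finset.card_pos] at h22
          obtain ⟨i, hi⟩ := h22
          rw [hA, Finset.mem_filter] at hi
          have h23 : i ∈ S' := by
            rw [hS', Finset.mem_filter]
            exact ⟨mem_univ _, by rw [hi.2]; rfl⟩
          rw [h0] at h23
          exact absurd h23 (Finset.notMem_empty _)
      subst h20
      simp at h7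
    · exact h0
  refine ⟨S'.card, fun l => m (ι l), g', ι, hn', hιinj, fun _ => rfl, h14, ?_⟩
  have hd' : (0 : ℝ) < d := by exact_mod_cast hd
  have h16 : (0 : ℝ) < BG (fun l => m (ι l)) g' := by linarith
  calc (d : ℝ) ^ 2 * RG g' = d * (d * RG g') := by ring
    _ ≤ d * (3 * BG (fun l => m (ι l)) g') := mul_le_mul_of_nonneg_left h15 hd'.le
    _ = (3 * d) * BG (fun l => m (ι l)) g' := by ring
    _ < BG (fun l => m (ι l)) g' * BG (fun l => m (ι l)) g' := mul_lt_mul_of_pos_right h14 h16
    _ = _ := by ring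

/-- The closed form of the empty side: a diagram for S_EMP2 and the parameters for S_PRE, S_CNE. -/
theorem t (n d M : ℕ) (m : Fin n → ℕ) (hm : ∀ i, m i ≤ M) (hpos : 1 ≤ ∑ i, m i)
    (h : d * (3 * d + 10 * M) ≤ 3 * ∑ i, m i ^ 2) :
    ∃ (A : Finset (Fin n)) (lam : ℕ → ℕ) (B R : ℝ), Dg m A lam ∧ 0 ≤ R ∧ 3 * (d : ℝ) < B ∧
      (d : ℝ) ^ 2 * R < B ^ 2 ∧ ∀ i : ℕ, ⌈B - i * R⌉₊ ≤ lam i := by
  classical
  obtain ⟨n', m', g, ι, hn', hι, hm', h1, h2⟩ := gre n d M m hm hpos h
  refine ⟨Finset.univ.image ι, fun i => LG m' g (i + 1), BG m' g, RG g,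
    DGL.dg_map m m' ι hι hm' (DGL.dg_LG m' g hn'), ?_, h1, h2, fun i => LGE.t n' m' g i⟩
  unfold RG
  apply Finset.sum_nonneg
  intro G _
  positivity

end Pool.Agent.Helper79.All.CLE
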