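import Pool.Agent.Helper1.All.Goals

set_option autoImplicit false

namespace Pool.Agent.Helper79.All.GRF

open Finset Pool.Agent.Helper1.All

/-- A top segment of `S` with `3 * sum < D`, maximal. -/
theorem exTop {ι : Type*} [DecidableEq ι] (S : Finset ι) (w : ι → ℕ) (D mm : ℕ)
    (hm : ∀ i ∈ S, w i ≤ mm) (hS : D ≤ 3 * ∑ i ∈ S, w i) (hh : 3 * mm < D) :
    ∃ G ⊆ S, G.Nonempty ∧ 3 * ∑ i ∈ G, w i < D ∧ D ≤ 3 * (∑ i ∈ G, w i) + 3 * mm ∧
      ∀ i ∈ G, ∀ j ∈ S \ G, w j ≤ w i := by
  classical
  have hne : (S.powerset.filter (fun G => 3 * ∑ i ∈ G, w i < D ∧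
      ∀ i ∈ G, ∀ j ∈ S \ G, w j ≤ w i)).Nonempty := by
    refine ⟨∅, ?_⟩
    simp only [mem_filter, mem_powerset, empty_subset, true_and, sum_empty]
    refine ⟨by omega, ?_⟩
    intro i hi
    simp at hi
  obtain ⟨G, hG, hmax⟩ := exists_max_image _ (fun G : Finset ι => G.card) hne
  simp only [mem_filter, mem_powerset] at hG
  obtain ⟨hGS, hGh, hGu⟩ := hG
  have hSG : (S \ G).Nonempty := by
    rcases Finset.eq_empty_or_nonempty (S \ G) with h0 | h0
    · have : S = G := subset_antisymm (sdiff_eq_empty_iff_subset.mp h0) hGS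
      rw [this] at hS
      omega
    · exact h0
  obtain ⟨j0, hj0, hj0max⟩ := exists_max_image (S \ G) w hSG
  rw [mem_sdiff] at hj0
  have hsum : ∑ i ∈ insert j0 G, w i = w j0 + ∑ i ∈ G, w i :=
    Finset.sum_insert hj0.2
  have hle : w j0 ≤ mm := hm j0 hj0.1
  have hlow : D ≤ 3 * (∑ i ∈ G, w i) + 3 * mm := by
    by_contra hcon
    push Not at hcon
    have hmem : insert j0 G ∈ S.powerset.filter (fun G => 3 * ∑ i ∈ G, w i < D ∧
        ∀ i ∈ G, ∀ j ∈ S \ G, w j ≤ w i) := by
      simp only [mem_filter, mem_powerset]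
      refine ⟨insert_subset hj0.1 hGS, by rw [hsum]; omega, ?_⟩
      intro i hi j hj
      rw [mem_sdiff, mem_insert, not_or] at hj
      rcases mem_insert.mp hi with rfl | hiG
      · exact hj0max j (mem_sdiff.mpr ⟨hj.1, hj.2.2⟩)
      · exact hGu i hiG j (mem_sdiff.mpr ⟨hj.1, hj.2.2⟩)
    have h1 := hmax _ hmem
    have h2 : (insert j0 G).card = G.card + 1 := card_insert_of_notMem hj0.2
    omega
  refine ⟨G, hGS, ?_, hGh, hlow, hGu⟩
  rcases Finset.eq_empty_or_nonempty G with h0 | h0
  · subst h0
    simp at hlow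
    omega
  · exact h0

/-- The greedy groups, regular side. -/
theorem greedyR {ι : Type*} [DecidableEq ι] (w : ι → ℕ) (D mm : ℕ) (hh : 3 * mm < D) :
    ∀ (k : ℕ) (S : Finset ι) (T : ℕ), S.card ≤ k → (∀ i ∈ S, w i ≤ T) → T ≤ mm →
      ∃ (b : ℕ) (g : ι → Option (Fin b)) (mx : Fin b → ℕ),
        (∀ i, i ∉ S → g i = none) ∧ (∀ i ∈ S, ∃ c, g i = some c ∧ w i ≤ mx c) ∧
        (∀ c, 3 * ∑ i ∈ S with g i = some c, w i < D) ∧
        (D - 3 * mm) * ∑ c, mx c ≤ (D - 3 * mm) * T + 3 * ∑ i ∈ S, w i ^ 2 := by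
  classical
  intro k
  induction k with
  | zero =>
    intro S T hk _ _
    have hS : S = ∅ := by
      rw [← Finset.card_eq_zero]
      omega
    subst hS
    refine ⟨0, fun _ => none, fun c => c.elim0, fun _ _ => rfl, ?_, fun c => c.elim0, ?_⟩
    · intro i hi
      simp at hi
    · simp
  | succ k ih =>
    intro S T hk hT hTm
    by_cases hlt : 3 * ∑ i ∈ S, w i < D
    · refine ⟨1, fun i => if i ∈ S then some 0 else none, fun _ => T, ?_, ?_, ?_, ?_⟩
      · intro i hi
        simp [hi]
      · intro i hi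
        exact ⟨0, by simp [hi], hT i hi⟩
      · intro c
        refine lt_of_le_of_lt ?_ hlt
        apply Nat.mul_le_mul_left
        exact Finset.sum_le_sum_of_subset_of_nonneg (filter_subset _ _)
          (fun _ _ _ => Nat.zero_le _)
      · simp only [univ_unique, sum_const, card_singleton, one_smul]
        omega
    · push Not at hlt
      obtain ⟨G, hGS, hGne, hGh, hGlow, hGu⟩ := exTop S w D mm
        (fun i hi => (hT i hi).trans hTm) hlt hh
      obtain ⟨i0, hi0, hi0min⟩ := exists_min_image G w hGne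
      have hcard : (S \ G).card ≤ k := by
        have h1 : (S \ G).card < S.card := by
          apply Finset.card_lt_card
          refine ⟨sdiff_subset, ?_⟩
          intro hsub
          have := hsub (hGS hi0)
          rw [mem_sdiff] at this
          exact this.2 hi0
        omega
      obtain ⟨b, g, mx, h1, h2, h3, h4⟩ := ih (S \ G) (w i0) hcard
        (fun j hj => hGu i0 hi0 j hj) (le_trans (hT i0 (hGS hi0)) hTm)
      refine ⟨b + 1, fun i => if i ∈ G then some (Fin.last b) else (g i).map Fin.castSucc,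
        Fin.snoc (α := fun _ => ℕ) mx T, ?_, ?_, ?_, ?_⟩
      · intro i hi
        have hiG : i ∉ G := fun h => hi (hGS h)
        simp only [hiG, if_false]
        rw [h1 i (fun h => hi (mem_sdiff.mp h).1)]
        rfl
      · intro i hi
        by_cases hiG : i ∈ G
        · refine ⟨Fin.last b, by simp [hiG], ?_⟩
          rw [Fin.snoc_last]
          exact hT i hi
        · obtain ⟨c, hc, hc'⟩ := h2 i (mem_sdiff.mpr ⟨hi, hiG⟩)
          refine ⟨Fin.castSucc c, by simp [hiG, hc], ?_⟩
          rw [Fin.snoc_castSucc]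
          exact hc'
      · intro c
        refine Fin.lastCases ?_ (fun c' => ?_) c
        · refine lt_of_le_of_lt (Nat.mul_le_mul_left 3
            (Finset.sum_le_sum_of_subset_of_nonneg ?_ ?_)) hGh
          · intro i hi
            simp only [mem_filter] at hi
            by_contra hiG
            have h5 := hi.2
            simp only [hiG, if_false, Option.map_eq_some_iff] at h5
            obtain ⟨c', _, hc'⟩ := h5
            exact (Fin.castSucc_lt_last c').ne hc'
          · intro i _ _
            exact Nat.zero_le _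
        · refine lt_of_le_of_lt (Nat.mul_le_mul_left 3
            (Finset.sum_le_sum_of_subset_of_nonneg ?_ ?_)) (h3 c')
          · intro i hi
            simp only [mem_filter] at hi
            have h5 := hi.2
            by_cases hiG : i ∈ G
            · simp only [hiG, if_true, Option.some.injEq] at h5
              exact absurd h5.symm (Fin.castSucc_lt_last c').ne
            · simp only [hiG, if_false, Option.map_eq_some_iff] at h5
              obtain ⟨c'', hc1, hc2⟩ := h5
              have : c'' = c' := Fin.castSucc_injective _ hc2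
              subst this
              simp only [mem_filter, mem_sdiff]
              exact ⟨⟨hi.1, hiG⟩, hc1⟩
          · intro i _ _
            exact Nat.zero_le _
      · rw [Fin.sum_univ_castSucc]
        simp only [Fin.snoc_castSucc, Fin.snoc_last]
        have h5 : ∑ i ∈ S, w i ^ 2 = ∑ i ∈ S \ G, w i ^ 2 + ∑ i ∈ G, w i ^ 2 :=
          (Finset.sum_sdiff hGS).symm
        have h6 : w i0 * ∑ i ∈ G, w i ≤ ∑ i ∈ G, w i ^ 2 := by
          rw [Finset.mul_sum]
          apply Finset.sum_le_sum
          intro i hi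
          rw [sq]
          exact Nat.mul_le_mul_right _ (hi0min i hi)
        have h9 : (D - 3 * mm) * w i0 ≤ 3 * ∑ i ∈ G, w i ^ 2 := by
          calc (D - 3 * mm) * w i0 ≤ (3 * ∑ i ∈ G, w i) * w i0 :=
                Nat.mul_le_mul_right _ (by omega)
            _ = 3 * (w i0 * ∑ i ∈ G, w i) := by ring
            _ ≤ _ := Nat.mul_le_mul_left 3 h6
        rw [h5]
        nlinarith

theorem t : S_GRF := by
  classical
  intro n d M m hm h
  rcases Nat.eq_zero_or_pos n with h0 | h0
  · subst h0
    refine ⟨fun _ => 0, ?_, ?_⟩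
    · intro G hG
      simp at hG
    · unfold BF
      simp
  have hM : 3 * M < d + 3 := by
    by_contra hcon
    push Not at hcon
    have h1 : d + 3 - 3 * M = 0 := by omega
    rw [h1, Nat.mul_zero] at h
    have h2 : 1 ≤ ∑ i, (m i + 1) ^ 2 := by
      have h3 : (m ⟨0, h0⟩ + 1) ^ 2 ≤ ∑ i, (m i + 1) ^ 2 :=
        Finset.single_le_sum (f := fun i => (m i + 1) ^ 2) (fun i _ => Nat.zero_le _)
          (Finset.mem_univ _)
      have h4 : 1 ≤ (m ⟨0, h0⟩ + 1) ^ 2 := Nat.one_le_pow _ _ (by omega)
      omega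
    omega
  obtain ⟨b, g, mx, _, h2, h3, h4⟩ := greedyR (fun i => m i + 1) (d + 3) M hM _ Finset.univ M
    le_rfl (fun i _ => hm i) le_rfl
  have h2' : ∀ i, ∃ c, g i = some c ∧ m i + 1 ≤ mx c := fun i => h2 i (mem_univ i)
  choose g' hg' hg'' using h2'
  refine ⟨fun i => (g' i : ℕ), ?_, ?_⟩
  · intro G hG
    rw [Finset.mem_image] at hG
    obtain ⟨i, _, rfl⟩ := hG
    refine lt_of_le_of_lt (le_of_eq ?_) (h3 (g' i))
    unfold HF gr
    congr 1
    apply Finset.sum_congr _ (fun _ _ => rfl)
    ext j
    simp only [mem_filter, mem_univ, true_and, hg', Option.some.injEq]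
    exact Fin.val_inj
  · have h5 : BF m (fun i => (g' i : ℕ)) ≤ ∑ c, mx c := by
      unfold BF
      have h6 : Finset.univ.image (fun i => (g' i : ℕ)) ⊆
          Finset.univ.image (fun c : Fin b => (c : ℕ)) := by
        intro x hx
        rw [Finset.mem_image] at *
        obtain ⟨i, _, rfl⟩ := hx
        exact ⟨g' i, mem_univ _, rfl⟩
      refine le_trans (Finset.sum_le_sum_of_subset_of_nonneg h6 (fun _ _ _ => Nat.zero_le _)) ?_
      rw [Finset.sum_image (fun a _ b _ hab => Fin.val_injective hab)]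
      apply Finset.sum_le_sum
      intro c _
      apply Finset.sup_le
      intro l hl
      simp only [gr, mem_filter, mem_univ, true_and] at hl
      have : g' l = c := Fin.val_injective hl
      rw [← this]
      exact hg'' l
    have h7 : (d + 3 - 3 * M) * ∑ c, mx c ≤ (d + 3 - 3 * M) * (3 * (d + 3)) := by
      have h8 : (d + 3 - 3 * M) * M + 3 * ∑ i, (m i + 1) ^ 2 ≤
          (d + 3 - 3 * M) * M + (3 * (d + 3) - M) * (d + 3 - 3 * M) := by omega
      have h9 : (d + 3 - 3 * M) * M + (3 * (d + 3) - M) * (d + 3 - 3 * M) =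
          (d + 3 - 3 * M) * (3 * (d + 3)) := by
        have h10 : (3 * (d + 3) - M) + M = 3 * (d + 3) := by omega
        calc (d + 3 - 3 * M) * M + (3 * (d + 3) - M) * (d + 3 - 3 * M)
            = (d + 3 - 3 * M) * ((3 * (d + 3) - M) + M) := by ring
          _ = _ := by rw [h10]
      linarith
    have h11 : ∑ c, mx c ≤ 3 * (d + 3) := Nat.le_of_mul_le_mul_left h7 (by omega)
    omega

end Pool.Agent.Helper79.All.GRF
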