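import Pool.Agent.Helper79.All.DGL
import Pool.Agent.Helper79.All.GRF

/-! Project ALLSYSTEMS: the closed form of the regular side (helper79).
`3 ∑ (m_i + 1)² + 10 (d + 3) M ≤ 3 (d + 3)² + 6 M²`, `m_i + 1 ≤ M`, `3 M < d + 3`. -/

set_option autoImplicit false

namespace Pool.Agent.Helper79.All.CLF

open Finset Pool.Agent.Helper1.All

/-- A maximal top segment `G` of `S` with `3 * sum < D`; `i0` is a maximum of `S`. The rest is empty, or
has a maximum `j0` with `D ≤ 3 (sum of G without i0) + 3 w i0 + 3 w j0`. -/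
theorem exTop {ι : Type*} [DecidableEq ι] (S : Finset ι) (w : ι → ℕ) (D : ℕ) (i0 : ι) (hi0 : i0 ∈ S)
    (hmax : ∀ j ∈ S, w j ≤ w i0) (hh : 3 * w i0 < D) :
    ∃ G ⊆ S, i0 ∈ G ∧ 3 * ∑ i ∈ G, w i < D ∧ (∀ i ∈ G, ∀ j ∈ S \ G, w j ≤ w i) ∧
      (S \ G = ∅ ∨ ∃ j0 ∈ S \ G, (∀ j ∈ S \ G, w j ≤ w j0) ∧
        D ≤ 3 * (∑ i ∈ G.erase i0, w i) + 3 * w i0 + 3 * w j0) := by
  classical
  have hne : (S.powerset.filter (fun G => i0 ∈ G ∧ 3 * ∑ i ∈ G, w i < D ∧
      ∀ i ∈ G, ∀ j ∈ S \ G, w j ≤ w i)).Nonempty := by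
    refine ⟨{i0}, ?_⟩
    simp only [mem_filter, mem_powerset, singleton_subset_iff, hi0, mem_singleton, true_and,
      sum_singleton]
    refine ⟨hh, ?_⟩
    intro i hi j hj
    rw [hi]
    exact hmax j (mem_sdiff.mp hj).1
  obtain ⟨G, hG, hGmax⟩ := exists_max_image _ (fun G : Finset ι => G.card) hne
  simp only [mem_filter, mem_powerset] at hG
  obtain ⟨hGS, hiG, hGh, hGu⟩ := hG
  refine ⟨G, hGS, hiG, hGh, hGu, ?_⟩
  rcases Finset.eq_empty_or_nonempty (S \ G) with h0 | h0
  · exact Or.inl h0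
  · right
    obtain ⟨j0, hj0, hj0max⟩ := exists_max_image (S \ G) w h0
    refine ⟨j0, hj0, hj0max, ?_⟩
    rw [mem_sdiff] at hj0
    have hsum : ∑ i ∈ insert j0 G, w i = w j0 + ∑ i ∈ G, w i :=
      Finset.sum_insert hj0.2
    have hsum' : ∑ i ∈ G.erase i0, w i + w i0 = ∑ i ∈ G, w i :=
      Finset.sum_erase_add _ _ hiG
    by_contra hcon
    push Not at hcon
    have hmem : insert j0 G ∈ S.powerset.filter (fun G => i0 ∈ G ∧ 3 * ∑ i ∈ G, w i < D ∧
        ∀ i ∈ G, ∀ j ∈ S \ G, w j ≤ w i) := by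
      simp only [mem_filter, mem_powerset]
      refine ⟨insert_subset hj0.1 hGS, mem_insert_of_mem hiG, by rw [hsum]; omega, ?_⟩
      intro i hi j hj
      rw [mem_sdiff, mem_insert, not_or] at hj
      rcases mem_insert.mp hi with rfl | hiG
      · exact hj0max j (mem_sdiff.mpr ⟨hj.1, hj.2.2⟩)
      · exact hGu i hiG j (mem_sdiff.mpr ⟨hj.1, hj.2.2⟩)
    have h1 := hGmax _ hmem
    have h2 : (insert j0 G).card = G.card + 1 := card_insert_of_notMem hj0.2
    omega

/-- The greedy groups, regular side (Meir and Moser's count). -/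
theorem greedyR {ι : Type*} [DecidableEq ι] (w : ι → ℕ) (D mm : ℕ) (hh : 3 * mm < D) :
    ∀ (k : ℕ) (S : Finset ι) (i0 : ι), S.card ≤ k → i0 ∈ S → (∀ i ∈ S, w i ≤ w i0) → w i0 ≤ mm →
      ∃ (b : ℕ) (g : ι → Option (Fin b)) (mx : Fin b → ℕ),
        (∀ i, i ∉ S → g i = none) ∧ (∀ i ∈ S, ∃ c, g i = some c ∧ w i ≤ mx c) ∧
        (∀ c, 3 * ∑ i ∈ S with g i = some c, w i < D) ∧
        (D - 3 * mm) * ∑ c, mx c + 3 * w i0 ^ 2 ≤
          (D - 3 * mm) * w i0 + 3 * ∑ i ∈ S, w i ^ 2 := by
  classical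
  intro k
  induction k with
  | zero =>
    intro S i0 hk hi0 _ _
    have hS : S = ∅ := by
      rw [← Finset.card_eq_zero]
      omega
    subst hS
    exact absurd hi0 (Finset.notMem_empty _)
  | succ k ih =>
    intro S i0 hk hi0 hT hTm
    obtain ⟨G, hGS, hiG, hGh, hGu, hrest⟩ := exTop S w D i0 hi0 hT (by omega)
    have h5 : ∑ i ∈ S, w i ^ 2 = ∑ i ∈ S \ G, w i ^ 2 + ∑ i ∈ G, w i ^ 2 :=
      (Finset.sum_sdiff hGS).symm
    have h5' : ∑ i ∈ G, w i ^ 2 = ∑ i ∈ G.erase i0, w i ^ 2 + w i0 ^ 2 :=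
      (Finset.sum_erase_add _ _ hiG).symm
    rcases hrest with hemp | ⟨j0, hj0, hj0max, hlow⟩
    · have hSG : S = G := subset_antisymm (sdiff_eq_empty_iff_subset.mp hemp) hGS
      subst hSG
      refine ⟨1, fun i => if i ∈ S then some 0 else none, fun _ => w i0, ?_, ?_, ?_, ?_⟩
      · intro i hi
        simp [hi]
      · intro i hi
        exact ⟨0, by simp [hi], hT i hi⟩
      · intro c
        refine lt_of_le_of_lt (Nat.mul_le_mul_left 3
          (Finset.sum_le_sum_of_subset_of_nonneg (filter_subset _ _) ?_)) hGh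
        intro i _ _
        exact Nat.zero_le _
      · simp only [univ_unique, sum_const, card_singleton, one_smul]
        omega
    · have hcard : (S \ G).card ≤ k := by
        have h1 : (S \ G).card < S.card := by
          apply Finset.card_lt_card
          refine ⟨sdiff_subset, ?_⟩
          intro hsub
          have := hsub (hGS hiG)
          rw [mem_sdiff] at this
          exact this.2 hiG
        omega
      have hj0S : j0 ∈ S := (mem_sdiff.mp hj0).1
      obtain ⟨b, g, mx, h1, h2, h3, h4⟩ := ih (S \ G) j0 hcard hj0 hj0max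
        (le_trans (hT j0 hj0S) hTm)
      refine ⟨b + 1, fun i => if i ∈ G then some (Fin.last b) else (g i).map Fin.castSucc,
        Fin.snoc (α := fun _ => ℕ) mx (w i0), ?_, ?_, ?_, ?_⟩
      · intro i hi
        have hiG : i ∉ G := fun h => hi (hGS h)
        simp only [hiG, if_false]
        rw [h1 i (fun h => hi (mem_sdiff.mp h).1)]
        rfl
      · intro i hi
        by_cases hiG : i ∈ G
        · refine ⟨Fin.last b, by simp [hiG], ?_⟩
          rw [Fin.snoc_last]
          exact hT i hi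
        · obtain ⟨c, hc, hc'⟩ := h2 i (mem_sdiff.mpr ⟨hi, hiG⟩)
          refine ⟨Fin.castSucc c, by simp [hiG, hc], ?_⟩
          rw [Fin.snoc_castSucc]
          exact hc'
      · intro c
        refine Fin.lastCases ?_ (fun c' => ?_) c
        · refine lt_of_le_of_lt (Nat.mul_le_mul_left 3
            (Finset.sum_le_sum_of_subset_of_nonneg ?_ ?_)) hGh
          · intro i hi
            simp only [mem_filter] at hi
            by_contra hiG
            have h5 := hi.2
            simp only [hiG, if_false, Option.map_eq_some_iff] at h5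
            obtain ⟨c', _, hc'⟩ := h5
            exact (Fin.castSucc_lt_last c').ne hc'
          · intro i _ _
            exact Nat.zero_le _
        · refine lt_of_le_of_lt (Nat.mul_le_mul_left 3
            (Finset.sum_le_sum_of_subset_of_nonneg ?_ ?_)) (h3 c')
          · intro i hi
            simp only [mem_filter] at hi
            have h5 := hi.2
            by_cases hiG : i ∈ G
            · simp only [hiG, if_true, Option.some.injEq] at h5
              exact absurd h5.symm (Fin.castSucc_lt_last c').ne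
            · simp only [hiG, if_false, Option.map_eq_some_iff] at h5
              obtain ⟨c'', hc1, hc2⟩ := h5
              have : c'' = c' := Fin.castSucc_injective _ hc2
              subst this
              simp only [mem_filter, mem_sdiff]
              exact ⟨⟨hi.1, hiG⟩, hc1⟩
          · intro i _ _
            exact Nat.zero_le _
      · rw [Fin.sum_univ_castSucc]
        simp only [Fin.snoc_castSucc, Fin.snoc_last]
        have h6 : w j0 * ∑ i ∈ G.erase i0, w i ≤ ∑ i ∈ G.erase i0, w i ^ 2 := by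
          rw [Finset.mul_sum]
          apply Finset.sum_le_sum
          intro i hi
          rw [sq]
          exact Nat.mul_le_mul_right _ (hGu i (mem_of_mem_erase hi) j0 hj0)
        have h9 : (D - 3 * mm) * w j0 ≤ 3 * ∑ i ∈ G.erase i0, w i ^ 2 + 3 * w j0 ^ 2 := by
          calc (D - 3 * mm) * w j0 ≤ (3 * ∑ i ∈ G.erase i0, w i + 3 * w j0) * w j0 :=
                Nat.mul_le_mul_right _ (by omega)
            _ = 3 * (w j0 * ∑ i ∈ G.erase i0, w i) + 3 * w j0 ^ 2 := by ring
            _ ≤ _ := Nat.add_le_add_right (Nat.mul_le_mul_left 3 h6) _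
        rw [h5, h5', Nat.mul_add]
        omega

/-- The greedy groups as in S_GRF, with the better constant. -/
theorem grf (n d M : ℕ) (m : Fin n → ℕ) (hm : ∀ i, m i + 1 ≤ M) (hM : 3 * M < d + 3)
    (h : 3 * ∑ i, (m i + 1) ^ 2 + 10 * (d + 3) * M ≤ 3 * (d + 3) ^ 2 + 6 * M ^ 2) :
    ∃ g : Fin n → ℕ, (∀ G ∈ Finset.univ.image g, 3 * HF m g G < d + 3) ∧ BF m g ≤ 3 * (d + 3) := by
  classical
  rcases Nat.eq_zero_or_pos n with h0 | h0
  · subst h0
    refine ⟨fun _ => 0, ?_, ?_⟩
    · intro G hG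
      simp at hG
    · unfold BF
      simp
  obtain ⟨i0, _, hi0⟩ := exists_max_image Finset.univ m ⟨⟨0, h0⟩, Finset.mem_univ _⟩
  set T : ℕ := m i0 + 1 with hT
  have hTM : T ≤ M := hm i0
  have hTD : 3 * T < d + 3 := by omega
  -- the hypothesis for the true maximum
  have hT2 : 3 * ∑ i, (m i + 1) ^ 2 + 10 * (d + 3) * T ≤ 3 * (d + 3) ^ 2 + 6 * T ^ 2 := by
    obtain ⟨e, rfl⟩ : ∃ e, M = T + e := ⟨M - T, by omega⟩
    nlinarith [Nat.zero_le e, Nat.zero_le T]
  obtain ⟨b, g, mx, _, h2, h3, h4⟩ := greedyR (fun i => m i + 1) (d + 3) T hTD _ Finset.univ i0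
    le_rfl (Finset.mem_univ _) (fun i _ => Nat.add_le_add_right (hi0 i (Finset.mem_univ _)) 1) le_rfl
  have h2' : ∀ i, ∃ c, g i = some c ∧ m i + 1 ≤ mx c := fun i => h2 i (mem_univ i)
  choose g' hg' hg'' using h2'
  refine ⟨fun i => (g' i : ℕ), ?_, ?_⟩
  · intro G hG
    rw [Finset.mem_image] at hG
    obtain ⟨i, _, rfl⟩ := hG
    refine lt_of_le_of_lt (le_of_eq ?_) (h3 (g' i))
    unfold HF gr
    congr 1
    apply Finset.sum_congr _ (fun _ _ => rfl)
    ext j
    simp only [mem_filter, mem_univ, true_and, hg', Option.some.injEq]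
    exact Fin.val_inj
  · have h5 : BF m (fun i => (g' i : ℕ)) ≤ ∑ c, mx c := by
      unfold BF
      have h6 : Finset.univ.image (fun i => (g' i : ℕ)) ⊆
          Finset.univ.image (fun c : Fin b => (c : ℕ)) := by
        intro x hx
        rw [Finset.mem_image] at *
        obtain ⟨i, _, rfl⟩ := hx
        exact ⟨g' i, mem_univ _, rfl⟩
      refine le_trans (Finset.sum_le_sum_of_subset_of_nonneg h6 (fun _ _ _ => Nat.zero_le _)) ?_
      rw [Finset.sum_image (fun a _ b _ hab => Fin.val_injective hab)]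
      apply Finset.sum_le_sum
      intro c _
      apply Finset.sup_le
      intro l hl
      simp only [gr, mem_filter, mem_univ, true_and] at hl
      have : g' l = c := Fin.val_injective hl
      rw [← this]
      exact hg'' l
    have h7 : (d + 3 - 3 * T) * ∑ c, mx c ≤ (d + 3 - 3 * T) * (3 * (d + 3)) := by
      obtain ⟨e, he⟩ : ∃ e, d + 3 = 3 * T + e := ⟨d + 3 - 3 * T, by omega⟩
      have he' : d + 3 - 3 * T = e := by omega
      rw [he'] at h4 ⊢
      rw [he] at hT2 ⊢
      have h8 : 3 * (m i0 + 1) ^ 2 = 3 * T ^ 2 := by rw [hT]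
      have h9 : e * (m i0 + 1) = e * T := by rw [hT]
      have h4' : e * ∑ c, mx c + 3 * T ^ 2 ≤ e * T + 3 * ∑ i, (m i + 1) ^ 2 := h4
      nlinarith
    have h11 : ∑ c, mx c ≤ 3 * (d + 3) := Nat.le_of_mul_le_mul_left h7 (by omega)
    omega

/-- The closed form of the regular side: a diagram for S_REG2 and the parameters for S_PRF. -/
theorem t (n d M : ℕ) (m : Fin n → ℕ) (hn : 0 < n) (hm : ∀ i, m i + 1 ≤ M) (hM : 3 * M < d + 3)
    (h : 3 * ∑ i, (m i + 1) ^ 2 + 10 * (d + 3) * M ≤ 3 * (d + 3) ^ 2 + 6 * M ^ 2) :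
    ∃ (lam : ℕ → ℕ) (H B : ℕ), Dg m Finset.univ lam ∧ 3 * H < d + 3 ∧ H * B < (d + 3) ^ 2 ∧
      ∀ S₀ : ℝ, 0 < S₀ → (H : ℝ) ≤ S₀ →
        ∀ i : ℕ, (lam i : ℝ) ≤ (B : ℝ) * max 0 (1 - ((i : ℝ) + 1) / S₀) := by
  classical
  obtain ⟨g, h1, h2⟩ := grf n d M m hm hM h
  refine ⟨fun i => LG m g (i + 1), (Finset.univ.image g).sup (HF m g), BF m g,
    DGL.dg_LG m g hn, ?_, ?_, ?_⟩
  · have h3 : (Finset.univ.image g).sup (HF m g) ≤ (d + 2) / 3 := by
      apply Finset.sup_le
      intro G hG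
      have := h1 G hG
      omega
    omega
  · have h3 : (Finset.univ.image g).sup (HF m g) ≤ (d + 2) / 3 := by
      apply Finset.sup_le
      intro G hG
      have := h1 G hG
      omega
    have h4 : 3 * (Finset.univ.image g).sup (HF m g) < d + 3 := by omega
    have h5 : (Finset.univ.image g).sup (HF m g) * BF m g ≤
        (Finset.univ.image g).sup (HF m g) * (3 * (d + 3)) := Nat.mul_le_mul_left _ h2
    have h6 : (3 * (Finset.univ.image g).sup (HF m g)) * (d + 3) < (d + 3) * (d + 3) :=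
      Nat.mul_lt_mul_of_pos_right h4 (by omega)
    nlinarith
  · intro S₀ hS hHS i
    have h3 := LGF.t n m g S₀ (i + 1) (by omega) hS (by
      intro G hG
      refine le_trans ?_ hHS
      exact_mod_cast Finset.le_sup (f := HF m g) hG)
    push_cast at h3
    exact h3

end Pool.Agent.Helper79.All.CLF
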