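import Pool.Agent.Helper79.All.CLE
import Pool.Agent.Helper79.All.CLF
import Pool.Agent.Helper35.All.GUI

/-! Project ALLSYSTEMS: the closed forms as guillotine coverings and packings (helper79). -/

set_option autoImplicit false

namespace Pool.Agent.Helper79.All.CLG

open Finset Pool.Agent.Helper1.All Pool.Agent.Helper35.All.GUI

/-- The closed form of the empty side. -/
theorem closedCov (n d M : ℕ) (m : Fin n → ℕ) (hm : ∀ i, m i ≤ M) (hpos : 1 ≤ ∑ i, m i)
    (h : 3 * d ^ 2 + 10 * M * d ≤ 3 * ∑ i, m i ^ 2) :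
    ∃ (A : Finset (Fin n)) (W H : ℝ), Cov m W H A ∧ 3 * (d : ℝ) < W ∧ (d : ℝ) ^ 2 < W * H := by
  classical
  rcases Nat.eq_zero_or_pos d with hd0 | hd
  · subst hd0
    have hex : ∃ i, 1 ≤ m i := by
      by_contra hcon
      push Not at hcon
      have : ∑ i, m i = 0 := by
        apply Finset.sum_eq_zero
        intro i _
        have := hcon i
        omega
      omega
    obtain ⟨i, hi⟩ := hex
    have hi' : (1 : ℝ) ≤ m i := by exact_mod_cast hi
    refine ⟨{i}, m i, m i, Cov.piece i _ _ (by linarith) (by linarith) le_rfl le_rfl, ?_, ?_⟩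
    · push_cast
      linarith
    · push_cast
      nlinarith
  obtain ⟨b, g, mn, _, h2, h3, _, h5⟩ := CLE.greedyE m d M hd _ Finset.univ M
    le_rfl (fun i _ => hm i) le_rfl
  have h6 := h5 hpos
  have h7 : 3 * d < ∑ c, mn c := by
    have h8 : (d + 3 * M) * (3 * d) < (d + 3 * M) * ∑ c, mn c := by
      have e1 : 3 * d ^ 2 + 10 * M * d = d * M + (d + 3 * M) * (3 * d) := by ring
      have e2 : d * (M + ∑ c, mn c) + 3 * M * ∑ c, mn c = d * M + (d + 3 * M) * ∑ c, mn c := by
        ring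
      omega
    exact Nat.lt_of_mul_lt_mul_left h8
  set A : Fin b → Finset (Fin n) := fun c => Finset.univ.filter (fun i => g i = some c) with hA
  set C : Finset (Fin b) := Finset.univ.filter (fun c => 0 < mn c) with hC
  have hsumC : ∑ c ∈ C, mn c = ∑ c, mn c := by
    apply Finset.sum_subset (Finset.subset_univ _)
    intro c _ hc
    rw [hC, Finset.mem_filter, not_and] at hc
    have := hc (Finset.mem_univ c)
    omega
  have hCne : C.Nonempty := by
    rcases Finset.eq_empty_or_nonempty C with h0 | h0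
    · rw [h0, Finset.sum_empty] at hsumC
      omega
    · exact h0
  have hd' : (0 : ℝ) < d := by exact_mod_cast hd
  have hcov := covRow (m := m) A (fun c => (mn c : ℝ)) ((d : ℝ) / 3) C hCne ?_ ?_
  · have hW : 3 * (d : ℝ) < ∑ c ∈ C, (mn c : ℝ) := by
      rw [← Nat.cast_sum, hsumC]
      exact_mod_cast h7
    refine ⟨C.biUnion A, _, _, hcov, hW, ?_⟩
    nlinarith
  · intro c hc
    rw [hC, Finset.mem_filter] at hc
    have hsum : ((d : ℝ) / 3) ≤ ∑ i ∈ A c, (m i : ℝ) := by
      rw [← Nat.cast_sum]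
      have : (d : ℝ) ≤ 3 * ((∑ i ∈ A c, m i : ℕ) : ℝ) := by exact_mod_cast h3 c
      linarith
    apply covCol (by exact_mod_cast hc.2) (A c) _ _ _ (by positivity) hsum
    · rcases Finset.eq_empty_or_nonempty (A c) with h0 | h0
      · rw [h0, Finset.sum_empty] at hsum
        linarith
      · exact h0
    · intro i hi
      rw [hA, Finset.mem_filter] at hi
      exact_mod_cast h2 i c hi.2
  · intro c _ c' _ hcc
    rw [Finset.disjoint_left]
    intro i hi hi'
    rw [hA, Finset.mem_filter] at hi hi'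
    rw [hi.2] at hi'
    exact hcc (Option.some_injective _ hi'.2)

/-- The closed form of the regular side. -/
theorem closedPack (n d M : ℕ) (m : Fin n → ℕ) (hn : 1 ≤ n) (hm : ∀ i, m i + 1 ≤ M)
    (hM : 3 * M < d + 3)
    (h : 3 * ∑ i, (m i + 1) ^ 2 + 10 * M * (d + 3) ≤ 3 * (d + 3) ^ 2 + 6 * M ^ 2) :
    ∃ W H : ℝ, Pack m W H Finset.univ ∧ 3 * H < (d : ℝ) + 3 ∧ W * H < ((d : ℝ) + 3) ^ 2 := by
  classical
  obtain ⟨g, h1, h2⟩ := CLF.grf n d M m hm hM (by
    have : 10 * (d + 3) * M = 10 * M * (d + 3) := by ring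
    omega)
  have hpack := packRow (m := m) (gr g) (fun G => (((gr g G).sup fun l => m l + 1 : ℕ) : ℝ))
    (((d + 2) / 3 : ℕ) : ℝ) (Finset.univ.image g)
    ⟨g ⟨0, hn⟩, Finset.mem_image_of_mem g (Finset.mem_univ _)⟩ ?_ ?_
  · have huniv : (Finset.univ.image g).biUnion (gr g) = Finset.univ := by
      ext l
      simp [gr]
    rw [huniv] at hpack
    have hH : 3 * (((d + 2) / 3 : ℕ) : ℝ) < (d : ℝ) + 3 := by
      have : 3 * ((d + 2) / 3) < d + 3 := by omega
      exact_mod_cast this
    refine ⟨_, _, hpack, hH, ?_⟩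
    have hW : (∑ G ∈ Finset.univ.image g, (((gr g G).sup fun l => m l + 1 : ℕ) : ℝ)) ≤
        3 * ((d : ℝ) + 3) := by
      rw [← Nat.cast_sum]
      have h3 : ((BF m g : ℕ) : ℝ) ≤ ((3 * (d + 3) : ℕ) : ℝ) := by exact_mod_cast h2
      unfold BF at h3
      push_cast at h3 ⊢
      exact h3
    have hH0 : (0 : ℝ) ≤ (((d + 2) / 3 : ℕ) : ℝ) := Nat.cast_nonneg _
    have hd0 : (0 : ℝ) ≤ (d : ℝ) := Nat.cast_nonneg _
    nlinarith
  · intro G hG
    apply packCol
    · rw [Finset.mem_image] at hG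
      obtain ⟨l, _, hl⟩ := hG
      refine ⟨l, ?_⟩
      unfold gr
      rw [Finset.mem_filter]
      exact ⟨Finset.mem_univ l, hl⟩
    · intro i hi
      have h3 : m i + 1 ≤ (gr g G).sup fun l => m l + 1 :=
        Finset.le_sup (f := fun l => m l + 1) hi
      exact_mod_cast h3
    · have h3 := h1 G hG
      have h4 : HF m g G ≤ (d + 2) / 3 := by omega
      unfold HF at h4
      have h5 : ((∑ l ∈ gr g G, (m l + 1) : ℕ) : ℝ) ≤ (((d + 2) / 3 : ℕ) : ℝ) := by
        exact_mod_cast h4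
      push_cast at h5 ⊢
      exact h5
  · intro G _ G' _ hGG
    rw [Finset.disjoint_left]
    intro i hi hi'
    unfold gr at hi hi'
    rw [Finset.mem_filter] at hi hi'
    exact hGG (hi.2.symm.trans hi'.2)

end Pool.Agent.Helper79.All.CLG
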