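import Pool.Agent.Helper79.All.CV

/-! Project ALLSYSTEMS: cutting sorted families into segments (helper79). -/

set_option autoImplicit false

noncomputable section

namespace Pool.Agent.Helper79.All.SEG

open Finset

variable {ι : Type*} [DecidableEq ι]

/-- A minimal top segment (for the key `k`) of weight at least `t`. -/
theorem seg (S : Finset ι) (k w : ι → ℝ) (t : ℝ) (ht : 0 < t) (hS : t ≤ ∑ i ∈ S, w i) :
    ∃ G ⊆ S, ∃ i0 ∈ G, t ≤ ∑ i ∈ G, w i ∧ ∑ i ∈ G, w i < t + w i0 ∧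
      (∀ i ∈ G, k i0 ≤ k i) ∧ ∀ i ∈ G, ∀ j ∈ S \ G, k j ≤ k i := by
  classical
  have hne : (S.powerset.filter (fun G => t ≤ ∑ i ∈ G, w i ∧
      ∀ i ∈ G, ∀ j ∈ S \ G, k j ≤ k i)).Nonempty := by
    refine ⟨S, ?_⟩
    simp only [mem_filter, mem_powerset, subset_refl, true_and]
    refine ⟨hS, ?_⟩
    intro i _ j hj
    simp at hj
  obtain ⟨G, hG, hmin⟩ := exists_min_image _ (fun G : Finset ι => G.card) hne
  simp only [mem_filter, mem_powerset] at hG
  obtain ⟨hGS, hGh, hGu⟩ := hG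
  have hGne : G.Nonempty := by
    rcases Finset.eq_empty_or_nonempty G with h0 | h0
    · subst h0
      rw [Finset.sum_empty] at hGh
      linarith
    · exact h0
  obtain ⟨i0, hi0, hi0min⟩ := exists_min_image G k hGne
  refine ⟨G, hGS, i0, hi0, hGh, ?_, hi0min, hGu⟩
  by_contra hcon
  push Not at hcon
  have hsum : ∑ i ∈ G.erase i0, w i + w i0 = ∑ i ∈ G, w i :=
    Finset.sum_erase_add _ _ hi0
  have hmem : G.erase i0 ∈ S.powerset.filter (fun G => t ≤ ∑ i ∈ G, w i ∧
      ∀ i ∈ G, ∀ j ∈ S \ G, k j ≤ k i) := by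
    simp only [mem_filter, mem_powerset]
    refine ⟨(erase_subset _ _).trans hGS, by linarith, ?_⟩
    intro i hi j hj
    have hiG : i ∈ G := mem_of_mem_erase hi
    rw [mem_sdiff] at hj
    by_cases hjG : j ∈ G
    · have : j = i0 := by
        by_contra hne
        exact hj.2 (mem_erase.mpr ⟨hne, hjG⟩)
      rw [this]
      exact hi0min i hiG
    · exact hGu i hiG j (mem_sdiff.mpr ⟨hj.1, hjG⟩)
  have h1 := hmin _ hmem
  have h2 : (G.erase i0).card < G.card := card_erase_lt_of_mem hi0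
  omega

theorem card_sdiff_lt {S G : Finset ι} {k : ℕ} (hGS : G ⊆ S) {i0 : ι} (hi0 : i0 ∈ G)
    (hk : S.card ≤ k + 1) : (S \ G).card ≤ k := by
  have h1 : (S \ G).card < S.card := by
    apply Finset.card_lt_card
    refine ⟨sdiff_subset, ?_⟩
    intro hsub
    have := hsub (hGS hi0)
    rw [mem_sdiff] at this
    exact this.2 hi0
  omega

/-- The rows: segments of sum in `[a, a + M)`, the last one is dropped. -/
theorem rows (w : ι → ℝ) (a M : ℝ) (ha : 0 < a) (hw : ∀ i, 0 ≤ w i) :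
    ∀ (k : ℕ) (S : Finset ι) (T : ℝ), S.card ≤ k → (∀ i ∈ S, w i ≤ T) → 0 ≤ T → T ≤ M →
      ∃ P : Finset (Finset ι), (∀ G ∈ P, G.Nonempty ∧ G ⊆ S) ∧
        (∀ G ∈ P, ∀ G' ∈ P, G ≠ G' → Disjoint G G') ∧
        (∀ G ∈ P, a ≤ ∑ i ∈ G, w i ∧ ∑ i ∈ G, w i ≤ a + M) ∧
        (∀ G ∈ P, ∑ i ∈ G, w i ≤ M * G.card) ∧
        ∑ i ∈ S, w i ^ 2 ≤ (a + M) * T + ∑ G ∈ P, (∑ i ∈ G, w i) ^ 2 / (G.card : ℝ) := by
  classical
  intro k
  induction k with
  | zero =>
    intro S T hk _ hT0 hTM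
    have hS : S = ∅ := by
      rw [← Finset.card_eq_zero]
      omega
    subst hS
    refine ⟨∅, ?_, ?_, ?_, ?_, ?_⟩
    · intro G hG; exact absurd hG (Finset.notMem_empty G)
    · intro G hG; exact absurd hG (Finset.notMem_empty G)
    · intro G hG; exact absurd hG (Finset.notMem_empty G)
    · intro G hG; exact absurd hG (Finset.notMem_empty G)
    · rw [Finset.sum_empty, Finset.sum_empty]
      nlinarith
  | succ k ih =>
    intro S T hk hT hT0 hTM
    have hsq : ∀ G ⊆ S, ∑ i ∈ G, w i ^ 2 ≤ T * ∑ i ∈ G, w i := by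
      intro G hG
      rw [Finset.mul_sum]
      apply Finset.sum_le_sum
      intro i hi
      rw [sq]
      exact mul_le_mul_of_nonneg_right (hT i (hG hi)) (hw i)
    by_cases hlt : ∑ i ∈ S, w i < a
    · refine ⟨∅, ?_, ?_, ?_, ?_, ?_⟩
      · intro G hG; exact absurd hG (Finset.notMem_empty G)
      · intro G hG; exact absurd hG (Finset.notMem_empty G)
      · intro G hG; exact absurd hG (Finset.notMem_empty G)
      · intro G hG; exact absurd hG (Finset.notMem_empty G)
      · rw [Finset.sum_empty]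
        have := hsq S subset_rfl
        nlinarith
    · push Not at hlt
      obtain ⟨G, hGS, i0, hi0, hG1, hG2, hG3, hG4⟩ := seg S w w a ha hlt
      obtain ⟨P, h1, h2, h3, h4, h5⟩ := ih (S \ G) (w i0) (card_sdiff_lt hGS hi0 hk)
        (fun j hj => hG4 i0 hi0 j hj) (hw i0) ((hT i0 (hGS hi0)).trans hTM)
      have hGP : G ∉ P := by
        intro hGP
        have := (h1 G hGP).2 hi0
        rw [mem_sdiff] at this
        exact this.2 hi0
      have hwT : w i0 ≤ T := hT i0 (hGS hi0)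
      refine ⟨insert G P, ?_, ?_, ?_, ?_, ?_⟩
      · intro G' hG'
        rcases mem_insert.1 hG' with rfl | hG'
        · exact ⟨⟨i0, hi0⟩, hGS⟩
        · exact ⟨(h1 G' hG').1, (h1 G' hG').2.trans sdiff_subset⟩
      · have hdisj : ∀ G' ∈ P, Disjoint G G' := by
          intro G' hG'
          rw [Finset.disjoint_left]
          intro i hi hi'
          have := (h1 G' hG').2 hi'
          rw [mem_sdiff] at this
          exact this.2 hi
        intro G' hG' G'' hG'' hne
        rcases mem_insert.1 hG' with rfl | hG'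
        · rcases mem_insert.1 hG'' with rfl | hG''
          · exact absurd rfl hne
          · exact hdisj G'' hG''
        · rcases mem_insert.1 hG'' with h | hG''
          · rw [h]
            exact (hdisj G' hG').symm
          · exact h2 G' hG' G'' hG'' hne
      · intro G' hG'
        rcases mem_insert.1 hG' with rfl | hG'
        · exact ⟨hG1, by linarith⟩
        · exact h3 G' hG'
      · intro G' hG'
        rcases mem_insert.1 hG' with rfl | hG'
        · calc ∑ i ∈ G', w i ≤ ∑ i ∈ G', M := Finset.sum_le_sum fun i hi => (hT i (hGS hi)).trans hTM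
            _ = M * G'.card := by rw [Finset.sum_const, nsmul_eq_mul, mul_comm]
        · exact h4 G' hG'
      · rw [Finset.sum_insert hGP]
        have h6 : ∑ i ∈ S, w i ^ 2 = ∑ i ∈ S \ G, w i ^ 2 + ∑ i ∈ G, w i ^ 2 :=
          (Finset.sum_sdiff hGS).symm
        have h7 := hsq G hGS
        have hcard : (0 : ℝ) < (G.card : ℝ) := by exact_mod_cast Finset.card_pos.2 ⟨i0, hi0⟩
        have h8 : w i0 * G.card ≤ ∑ i ∈ G, w i := by
          rw [mul_comm, ← nsmul_eq_mul]
          exact Finset.card_nsmul_le_sum G w (w i0) hG3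
        have h9 : w i0 * (∑ i ∈ G, w i) ≤ (∑ i ∈ G, w i) ^ 2 / (G.card : ℝ) := by
          rw [le_div_iff₀ hcard]
          have : 0 ≤ ∑ i ∈ G, w i := Finset.sum_nonneg fun i _ => hw i
          nlinarith
        have h10 : 0 ≤ (a + M - ∑ i ∈ G, w i) * (T - w i0) :=
          mul_nonneg (by linarith) (by linarith)
        nlinarith

omit [DecidableEq ι] in
/-- The mean square is at most the square of the mean plus a quarter of the square of the range. -/
theorem popo (c : Finset ι) (p s : ι → ℝ) (α β : ℝ) (hc : c.Nonempty) (hp : ∀ r ∈ c, 0 < p r)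
    (h1 : ∀ r ∈ c, α ≤ s r) (h2 : ∀ r ∈ c, s r ≤ β) :
    ∑ r ∈ c, p r * s r ^ 2 ≤ (∑ r ∈ c, p r * s r) ^ 2 / (∑ r ∈ c, p r) +
      (∑ r ∈ c, p r) * (β - α) ^ 2 / 4 := by
  have hR : 0 < ∑ r ∈ c, p r := Finset.sum_pos hp hc
  have h3 : ∑ r ∈ c, p r * s r ^ 2 ≤ (α + β) * (∑ r ∈ c, p r * s r) - α * β * ∑ r ∈ c, p r := by
    rw [Finset.mul_sum, Finset.mul_sum, ← Finset.sum_sub_distrib]
    apply Finset.sum_le_sum
    intro r hr
    have h4 : 0 ≤ p r * ((s r - α) * (β - s r)) :=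
      mul_nonneg (hp r hr).le (mul_nonneg (by linarith [h1 r hr]) (by linarith [h2 r hr]))
    nlinarith
  set U := ∑ r ∈ c, p r * s r with hU
  set R := ∑ r ∈ c, p r with hRdef
  have h5 : (α + β) * U - R * (α + β) ^ 2 / 4 ≤ U ^ 2 / R := by
    rw [le_div_iff₀ hR]
    nlinarith [sq_nonneg (U - R * (α + β) / 2)]
  nlinarith

/-- The columns. `s r` is the width, `p r * s r` the height of the row `r`. -/
theorem cols (p s : ι → ℝ) (a M u : ℝ) (ha : 0 < a) (hM : 0 < M) (hMu : M < u) :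
    ∀ (q : ℕ) (S : Finset ι) (B δ : ℝ), 0 ≤ δ → δ < M → (∑ r ∈ S, p r * s r) + δ = (q + 1 : ℕ) * u →
      (∀ r ∈ S, a ≤ s r ∧ s r ≤ B ∧ p r * s r ≤ M) → (∀ r ∈ S, 0 < p r) → B ≤ a + M →
      ∃ Q : Finset (Finset ι), Q.Nonempty ∧ (∀ c ∈ Q, c.Nonempty ∧ c ⊆ S) ∧
        (∀ c ∈ Q, ∀ c' ∈ Q, c ≠ c' → Disjoint c c') ∧
        (∀ c ∈ Q, u - M ≤ ∑ r ∈ c, p r * s r ∧ ∑ r ∈ c, p r * s r ≤ u + M) ∧
        ∑ r ∈ S, p r * s r ^ 2 ≤ (∑ c ∈ Q, (∑ r ∈ c, p r * s r) ^ 2 / (∑ r ∈ c, p r)) +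
          (u + M) / (4 * a) * (M * (B - a)) := by
  classical
  -- the loss of one column
  have loss : ∀ (c : Finset ι) (α β : ℝ), c.Nonempty → (∀ r ∈ c, 0 < p r) → a ≤ α → α ≤ β →
      β - α ≤ M → (∀ r ∈ c, α ≤ s r) → (∀ r ∈ c, s r ≤ β) → ∑ r ∈ c, p r * s r ≤ u + M →
      ∑ r ∈ c, p r * s r ^ 2 ≤ (∑ r ∈ c, p r * s r) ^ 2 / (∑ r ∈ c, p r) +
        (u + M) / (4 * a) * (M * (β - α)) := by
    intro c α β hc hp haα hαβ hβα h1 h2 h3
    have h4 := popo c p s α β hc hp h1 h2
    have hR : 0 < ∑ r ∈ c, p r := Finset.sum_pos hp hc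
    have h5 : (∑ r ∈ c, p r) * a ≤ u + M := by
      refine le_trans ?_ h3
      rw [Finset.sum_mul]
      apply Finset.sum_le_sum
      intro r hr
      exact mul_le_mul_of_nonneg_left (haα.trans (h1 r hr)) (hp r hr).le
    have h6 : (∑ r ∈ c, p r) ≤ (u + M) / a := by
      rw [le_div_iff₀ ha]
      exact h5
    have h7 : (β - α) ^ 2 ≤ M * (β - α) := by
      rw [sq]
      exact mul_le_mul_of_nonneg_right hβα (by linarith)
    have h8 : (∑ r ∈ c, p r) * (β - α) ^ 2 / 4 ≤ (u + M) / (4 * a) * (M * (β - α)) := by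
      have h9 : (∑ r ∈ c, p r) * (β - α) ^ 2 ≤ (u + M) / a * (M * (β - α)) :=
        mul_le_mul h6 h7 (sq_nonneg _) (div_nonneg (by linarith) ha.le)
      have h10 : (u + M) / (4 * a) * (M * (β - α)) = (u + M) / a * (M * (β - α)) / 4 := by
        field_simp
      rw [h10]
      linarith
    linarith
  intro q
  induction q with
  | zero =>
    intro S B δ hδ0 hδM hsum hS hp hB
    have hSne : S.Nonempty := by
      rcases Finset.eq_empty_or_nonempty S with h0 | h0
      · exfalso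
        rw [h0, Finset.sum_empty] at hsum
        push_cast at hsum
        linarith
      · exact h0
    push_cast at hsum
    obtain ⟨r0, hr0⟩ := hSne
    have haB : a ≤ B := (hS r0 hr0).1.trans (hS r0 hr0).2.1
    refine ⟨{S}, ⟨S, Finset.mem_singleton_self S⟩, ?_, ?_, ?_, ?_⟩
    · intro c hc
      rw [Finset.mem_singleton] at hc
      subst hc
      exact ⟨⟨r0, hr0⟩, subset_rfl⟩
    · intro c hc c' hc' hne
      rw [Finset.mem_singleton] at hc hc'
      rw [hc, hc'] at hne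
      exact absurd rfl hne
    · intro c hc
      rw [Finset.mem_singleton] at hc
      subst hc
      constructor <;> linarith
    · rw [Finset.sum_singleton]
      exact loss S a B ⟨r0, hr0⟩ hp le_rfl haB (by linarith) (fun r hr => (hS r hr).1)
        (fun r hr => (hS r hr).2.1) (by linarith)
  | succ q ih =>
    intro S B δ hδ0 hδM hsum hS hp hB
    have hu : 0 < u := by linarith
    have hqu : 0 ≤ (q : ℝ) * u := by positivity
    push_cast at hsum
    obtain ⟨G, hGS, r0, hr0, hG1, hG2, hG3, hG4⟩ := seg S s (fun r => p r * s r) (u - δ)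
      (by linarith) (by nlinarith)
    have hr0S := hS r0 (hGS hr0)
    have hsplit : ∑ r ∈ S, p r * s r = ∑ r ∈ S \ G, p r * s r + ∑ r ∈ G, p r * s r :=
      (Finset.sum_sdiff hGS).symm
    obtain ⟨Q, hQ0, h1, h2, h3, h4⟩ := ih (S \ G) (s r0) (∑ r ∈ G, p r * s r + δ - u)
      (by linarith) (by linarith [hr0S.2.2]) (by push_cast; linarith)
      (fun r hr => ⟨(hS r (mem_sdiff.1 hr).1).1, hG4 r0 hr0 r hr, (hS r (mem_sdiff.1 hr).1).2.2⟩)
      (fun r hr => hp r (mem_sdiff.1 hr).1) (hr0S.2.1.trans hB)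
    have hGQ : G ∉ Q := by
      intro hGQ
      have := (h1 G hGQ).2 hr0
      rw [mem_sdiff] at this
      exact this.2 hr0
    have hGsum : ∑ r ∈ G, p r * s r ≤ u + M := by linarith [hr0S.2.2]
    refine ⟨insert G Q, ⟨G, mem_insert_self G Q⟩, ?_, ?_, ?_, ?_⟩
    · intro c hc
      rcases mem_insert.1 hc with rfl | hc
      · exact ⟨⟨r0, hr0⟩, hGS⟩
      · exact ⟨(h1 c hc).1, (h1 c hc).2.trans sdiff_subset⟩
    · have hdisj : ∀ c ∈ Q, Disjoint G c := by
        intro c hc
        rw [Finset.disjoint_left]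
        intro r hr hr'
        have := (h1 c hc).2 hr'
        rw [mem_sdiff] at this
        exact this.2 hr
      intro c hc c' hc' hne
      rcases mem_insert.1 hc with rfl | hc
      · rcases mem_insert.1 hc' with rfl | hc'
        · exact absurd rfl hne
        · exact hdisj c' hc'
      · rcases mem_insert.1 hc' with h | hc'
        · rw [h]
          exact (hdisj c hc).symm
        · exact h2 c hc c' hc' hne
    · intro c hc
      rcases mem_insert.1 hc with rfl | hc
      · exact ⟨by linarith, hGsum⟩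
      · exact h3 c hc
    · rw [Finset.sum_insert hGQ]
      have h5 : ∑ r ∈ S, p r * s r ^ 2 = ∑ r ∈ S \ G, p r * s r ^ 2 + ∑ r ∈ G, p r * s r ^ 2 :=
        (Finset.sum_sdiff hGS).symm
      have h6 := loss G (s r0) B ⟨r0, hr0⟩ (fun r hr => hp r (hGS hr)) hr0S.1 hr0S.2.1 (by linarith [hr0S.1]) hG3
        (fun r hr => (hS r (hGS hr)).2.1) hGsum
      have h7 : (u + M) / (4 * a) * (M * (B - a)) = (u + M) / (4 * a) * (M * (B - s r0)) +
          (u + M) / (4 * a) * (M * (s r0 - a)) := by ring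
      rw [h7]
      linarith

end Pool.Agent.Helper79.All.SEG
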