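import Pool.Agent.Helper79.All.CLE
import Pool.Agent.Helper79.All.SEG

/-! Project ALLSYSTEMS: the sharper closed form of the empty side (helper79).
`d² + M √(M d) + 30 M² ≤ ∑ m_i²`, `m_i ≤ M`. -/

set_option autoImplicit false

noncomputable section

namespace Pool.Agent.Helper79.All.CLS

open Finset Pool.Agent.Helper1.All Pool.Agent.Helper79.All.CV

/-- the final comparison -/
theorem fin {κ : Type*} (Q : Finset κ) (hQ : Q.Nonempty) (U R : κ → ℝ) (hR : ∀ c ∈ Q, 0 < R c)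
    (d M u : ℝ) (hd : 0 ≤ d) (hM : 0 < M) (hMu : M < u) (hu : 3 * (u + M) ≤ d)
    (hU : ∀ c ∈ Q, u - M ≤ U c ∧ U c ≤ u + M)
    (hE : d ^ 2 + 29 * M ^ 2 ≤ ∑ c ∈ Q, U c ^ 2 / R c) (hdu : d ^ 2 < 29 * (u ^ 2 - M ^ 2)) :
    3 * d < ∑ c ∈ Q, U c / R c ∧
      d ^ 2 * (∑ c ∈ Q, 1 / R c) < (∑ c ∈ Q, U c / R c) ^ 2 := by
  have hu0 : 0 < u := by linarith
  set V := ∑ c ∈ Q, U c / R c with hV
  set C := ∑ c ∈ Q, 1 / R c with hC
  set E := ∑ c ∈ Q, U c ^ 2 / R c with hEdef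
  have hC0 : 0 < C := Finset.sum_pos (fun c hc => by have := hR c hc; positivity) hQ
  have h1 : E ≤ (u + M) * V := by
    rw [hEdef, hV, Finset.mul_sum]
    apply Finset.sum_le_sum
    intro c hc
    have h2 := hR c hc
    obtain ⟨h3, h4⟩ := hU c hc
    rw [mul_div_assoc']
    apply div_le_div_of_nonneg_right _ h2.le
    nlinarith
  have h2 : E ≤ 2 * u * V - (u ^ 2 - M ^ 2) * C := by
    rw [hEdef, hV, hC, Finset.mul_sum, Finset.mul_sum, ← Finset.sum_sub_distrib]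
    apply Finset.sum_le_sum
    intro c hc
    have h2 := hR c hc
    obtain ⟨h3, h4⟩ := hU c hc
    rw [mul_div_assoc', mul_div_assoc', ← sub_div]
    apply div_le_div_of_nonneg_right _ h2.le
    nlinarith
  have hM2 : 0 < M ^ 2 := by positivity
  constructor
  · have h3 : (u + M) * (3 * d) < (u + M) * V := by nlinarith
    exact lt_of_mul_lt_mul_left h3 (by linarith)
  · have h4 : 0 < u ^ 2 - M ^ 2 := by nlinarith
    have h5 : E * (u ^ 2 - M ^ 2) * C ≤ u ^ 2 * V ^ 2 := by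
      have h6 : 0 ≤ E + (u ^ 2 - M ^ 2) * C := by
        have : 0 ≤ E := by nlinarith
        positivity
      have h7 : (E + (u ^ 2 - M ^ 2) * C) ^ 2 ≤ (2 * u * V) ^ 2 :=
        pow_le_pow_left₀ h6 (by linarith) 2
      nlinarith [sq_nonneg (E - (u ^ 2 - M ^ 2) * C)]
    have h8 : d ^ 2 * u ^ 2 < E * (u ^ 2 - M ^ 2) := by
      have h9 : (d ^ 2 + 29 * M ^ 2) * (u ^ 2 - M ^ 2) ≤ E * (u ^ 2 - M ^ 2) :=
        mul_le_mul_of_nonneg_right hE h4.le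
      nlinarith
    have h10 : u ^ 2 * (d ^ 2 * C) < u ^ 2 * V ^ 2 := by
      have := mul_lt_mul_of_pos_right h8 hC0
      nlinarith
    exact lt_of_mul_lt_mul_left h10 (by positivity)

theorem n1 (D N : ℝ) : 23 * ((D / 3 - N) * (D / 12 + N)) ≤ D ^ 2 := by
  nlinarith [sq_nonneg (D - 207 / 26 * N), sq_nonneg N]

theorem n2 (D N s T E X : ℝ) (hN : 0 < N) (hs : 0 < s) (hsd : s ≤ D / 3) (hu0 : 0 < D / 3 - N)
    (h : D ^ 2 + N * s + 30 * N ^ 2 ≤ X) (h5 : X ≤ (s / 4 + N) * N + E) (h6 : E ≤ (s / 4 + N) * T) :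
    23 * (D / 3 - N) ≤ T := by
  have hNs : 0 < N * s := mul_pos hN hs
  have h1 : D ^ 2 ≤ (s / 4 + N) * T := by
    have : (s / 4 + N) * N = N * s / 4 + N ^ 2 := by ring
    have h7 : 0 ≤ N ^ 2 := sq_nonneg N
    linarith
  have h2 : (s / 4 + N) * (23 * (D / 3 - N)) ≤ D ^ 2 := by
    have h3 : (s / 4 + N) * (23 * (D / 3 - N)) ≤ (D / 12 + N) * (23 * (D / 3 - N)) :=
      mul_le_mul_of_nonneg_right (by linarith) (by linarith)
    have h4 := n1 D N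
    have h5 : (D / 12 + N) * (23 * (D / 3 - N)) = 23 * ((D / 3 - N) * (D / 12 + N)) := by ring
    linarith
  exact le_of_mul_le_mul_left (h2.trans h1) (by positivity)

theorem n3 (D N s E E' X : ℝ) (hN : 0 < N) (hs : 0 < s)
    (h : D ^ 2 + N * s + 30 * N ^ 2 ≤ X) (h5 : X ≤ (s / 4 + N) * N + E) (h6 : E ≤ E' + N * s / 3) :
    D ^ 2 + 29 * N ^ 2 ≤ E' := by
  have hNs : 0 < N * s := mul_pos hN hs
  have : (s / 4 + N) * N = N * s / 4 + N ^ 2 := by ring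
  linarith

theorem n4 (D N u : ℝ) (hN : 0 < N) (hD : 19 * N < 2 * D) (hu : 23 / 24 * (D / 3 - N) ≤ u) :
    D ^ 2 < 29 * (u ^ 2 - N ^ 2) := by
  have h1 : (23 / 24 * (D / 3 - N)) ^ 2 ≤ u ^ 2 := pow_le_pow_left₀ (by linarith) hu 2
  nlinarith

theorem n5 (D N s u : ℝ) (hN : 0 < N) (hs : 0 < s) (hs2 : s ^ 2 = N * D) (hu : u + N ≤ D / 3) :
    (u + N) / (4 * (s / 4)) * (N * (s / 4 + N - s / 4)) ≤ N * s / 3 := by
  have h1 : (u + N) / (4 * (s / 4)) * (N * (s / 4 + N - s / 4)) = (u + N) * N ^ 2 / s := by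
    field_simp
    ring
  rw [h1, div_le_iff₀ hs]
  have h2 : (u + N) * N ^ 2 ≤ D / 3 * N ^ 2 := mul_le_mul_of_nonneg_right hu (by positivity)
  have h3 : N * s / 3 * s = D / 3 * N ^ 2 := by
    have : N * s / 3 * s = N / 3 * s ^ 2 := by ring
    rw [this, hs2]
    ring
  rw [h3]
  exact h2

/-- the case `2 d > 19 M` -/
theorem big (n d M : ℕ) (m : Fin n → ℕ) (hm : ∀ i, m i ≤ M) (hM : 1 ≤ M)
    (hdM : 19 * M < 2 * d)
    (h : (d : ℝ) ^ 2 + M * √((M : ℝ) * d) + 30 * (M : ℝ) ^ 2 ≤ ∑ i, (m i : ℝ) ^ 2) :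
    ∃ (A : Finset (Fin n)) (lam : ℕ → ℕ) (B R : ℝ), Dg m A lam ∧ 0 ≤ R ∧ 3 * (d : ℝ) < B ∧
      (d : ℝ) ^ 2 * R < B ^ 2 ∧ ∀ i : ℕ, ⌈B - i * R⌉₊ ≤ lam i := by
  classical
  have hM0 : (1 : ℝ) ≤ M := by exact_mod_cast hM
  have hMpos : (0 : ℝ) < M := by linarith
  have hdM' : 19 * (M : ℝ) < 2 * d := by exact_mod_cast hdM
  have hd0 : (0 : ℝ) < d := by linarith
  have hmN : ∀ i, (m i : ℝ) ≤ (M : ℝ) := fun i => by exact_mod_cast hm i
  set D : ℝ := (d : ℝ) with hD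
  set N : ℝ := (M : ℝ) with hN
  set s : ℝ := √(N * D) with hs
  have hs2 : s ^ 2 = N * D := Real.sq_sqrt (by positivity)
  have hs0 : 0 < s := Real.sqrt_pos.2 (by positivity)
  have hsd : s ≤ D / 3 := by
    apply Real.sqrt_le_iff.2
    constructor
    · positivity
    · nlinarith
  have ha : 0 < s / 4 := by positivity
  obtain ⟨P, p1, p2, p3, p4, p5⟩ := SEG.rows (fun i : Fin n => (m i : ℝ)) (s / 4) N ha
    (fun i => Nat.cast_nonneg _) _ Finset.univ N le_rfl (fun i _ => hmN i)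
    hMpos.le le_rfl
  have hPne : ∀ G ∈ P, (0 : ℝ) < (G.card : ℝ) := fun G hG => by
    exact_mod_cast Finset.card_pos.2 (p1 G hG).1
  set pr : Finset (Fin n) → ℝ := fun G => 1 / (G.card : ℝ) with hpr
  -- the total height
  obtain ⟨T, hT⟩ : ∃ T : ℝ, T = ∑ G ∈ P, pr G * sig m G := ⟨_, rfl⟩
  have hER : ∑ G ∈ P, (∑ i ∈ G, (m i : ℝ)) ^ 2 / (G.card : ℝ) = ∑ G ∈ P, pr G * sig m G ^ 2 := by
    apply Finset.sum_congr rfl
    intro G _
    rw [hpr]
    unfold sig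
    ring
  rw [hER] at p5
  have hET : ∑ G ∈ P, pr G * sig m G ^ 2 ≤ (s / 4 + N) * T := by
    rw [hT, Finset.mul_sum]
    apply Finset.sum_le_sum
    intro G hG
    have h1 : sig m G ≤ s / 4 + N := (p3 G hG).2
    have h2 : 0 ≤ pr G * sig m G := by
      have := hPne G hG
      have h3 : 0 ≤ sig m G := Finset.sum_nonneg fun i _ => Nat.cast_nonneg _
      rw [hpr]
      positivity
    calc pr G * sig m G ^ 2 = (pr G * sig m G) * sig m G := by ring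
      _ ≤ (pr G * sig m G) * (s / 4 + N) := mul_le_mul_of_nonneg_left h1 h2
      _ = _ := by ring
  have hu0 : 0 < D / 3 - N := by linarith
  have hT23 : 23 * (D / 3 - N) ≤ T := n2 D N s T _ _ hMpos hs0 hsd hu0 h p5 hET
  have hT0 : 0 < T := by linarith
  -- the number of columns
  obtain ⟨q, hq⟩ : ∃ q, ⌈T / (D / 3 - N)⌉₊ = q + 1 := by
    have : 0 < ⌈T / (D / 3 - N)⌉₊ := Nat.ceil_pos.2 (div_pos hT0 hu0)
    exact ⟨⌈T / (D / 3 - N)⌉₊ - 1, by omega⟩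
  have hq1 : T ≤ ((q + 1 : ℕ) : ℝ) * (D / 3 - N) := by
    have h1 := Nat.le_ceil (T / (D / 3 - N))
    rw [hq, div_le_iff₀ hu0] at h1
    exact h1
  have hq2 : (q : ℝ) * (D / 3 - N) < T := by
    have h1 : q < ⌈T / (D / 3 - N)⌉₊ := by omega
    rw [Nat.lt_ceil, lt_div_iff₀ hu0] at h1
    exact h1
  have hqpos : (0 : ℝ) < ((q + 1 : ℕ) : ℝ) := by positivity
  obtain ⟨u, hu⟩ : ∃ u : ℝ, u = T / ((q + 1 : ℕ) : ℝ) := ⟨_, rfl⟩
  have hqu : ((q + 1 : ℕ) : ℝ) * u = T := by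
    rw [hu]
    field_simp
  have hule : u ≤ D / 3 - N := by
    rw [hu, div_le_iff₀ hqpos]
    linarith
  have huge : 23 / 24 * (D / 3 - N) ≤ u := by
    rw [hu, le_div_iff₀ hqpos]
    push_cast
    linarith
  have hNu : N < u := by linarith
  obtain ⟨Q, q0, q1, q2, q3, q4⟩ := SEG.cols pr (sig m) (s / 4) N u ha hMpos hNu q P (s / 4 + N) 0
    le_rfl hMpos (by rw [add_zero, hqu, hT]) (fun G hG => ⟨(p3 G hG).1, (p3 G hG).2, by
      rw [hpr]
      have := hPne G hG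
      have h4 := p4 G hG
      simp only
      rw [one_div_mul_eq_div, div_le_iff₀ this]
      exact h4⟩) (fun G hG => by
      rw [hpr]
      have := hPne G hG
      positivity) le_rfl
  have hUc : ∀ c ∈ Q, Uc m c = ∑ G ∈ c, pr G * sig m G := by
    intro c _
    unfold Uc
    apply Finset.sum_congr rfl
    intro G _
    rw [hpr]
    ring
  have hRc : ∀ c, Rc c = ∑ G ∈ c, pr G := fun c => rfl
  have hRpos : ∀ c ∈ Q, 0 < Rc c := by
    intro c hc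
    rw [hRc]
    apply Finset.sum_pos _ (q1 c hc).1
    intro G hG
    have := hPne G ((q1 c hc).2 hG)
    rw [hpr]
    positivity
  have hloss := n5 D N s u hMpos hs0 hs2 (by linarith)
  have hE : D ^ 2 + 29 * N ^ 2 ≤ ∑ c ∈ Q, Uc m c ^ 2 / Rc c := by
    have h1 : ∑ c ∈ Q, Uc m c ^ 2 / Rc c =
        ∑ c ∈ Q, (∑ r ∈ c, pr r * sig m r) ^ 2 / ∑ r ∈ c, pr r := by
      apply Finset.sum_congr rfl
      intro c hc
      rw [hUc c hc, hRc]
    rw [h1]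
    exact n3 D N s _ _ _ hMpos hs0 h p5 (q4.trans (by linarith))
  have hdu : D ^ 2 < 29 * (u ^ 2 - N ^ 2) := n4 D N u hMpos hdM' huge
  obtain ⟨f1, f2⟩ := fin Q q0 (Uc m) Rc hRpos D N u hd0.le hMpos hNu (by linarith)
    (fun c hc => by rw [hUc c hc]; exact q3 c hc) hE hdu
  obtain ⟨A, lam, hA, hB⟩ := tree_dg m q0 (fun c hc => (q1 c hc).1)
    (fun c hc G hG => (p1 G ((q1 c hc).2 hG)).1) (by
      intro c hc G hG c' hc' G' hG' hne
      by_cases hGG : G = G'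
      · exfalso
        subst hGG
        rcases hne with hne | hne
        · exact Finset.disjoint_left.1 (q2 c hc c' hc' hne) hG hG'
        · exact hne rfl
      · exact p2 G ((q1 c hc).2 hG) G' ((q1 c' hc').2 hG') hGG)
  refine ⟨A, lam, _, _, hA, ?_, f1, f2, fun i => cv_ceil hB i⟩
  apply Finset.sum_nonneg
  intro c hc
  have := hRpos c hc
  positivity

/-- The sharper closed form of the empty side: a diagram for `emp` and the parameters for S_PRE,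
S_CNE. -/
theorem t (n d M : ℕ) (m : Fin n → ℕ) (hm : ∀ i, m i ≤ M) (hpos : 1 ≤ ∑ i, m i)
    (h : (d : ℝ) ^ 2 + M * √((M : ℝ) * d) + 30 * (M : ℝ) ^ 2 ≤ ∑ i, (m i : ℝ) ^ 2) :
    ∃ (A : Finset (Fin n)) (lam : ℕ → ℕ) (B R : ℝ), Dg m A lam ∧ 0 ≤ R ∧ 3 * (d : ℝ) < B ∧
      (d : ℝ) ^ 2 * R < B ^ 2 ∧ ∀ i : ℕ, ⌈B - i * R⌉₊ ≤ lam i := by
  have hM : 1 ≤ M := by
    by_contra hcon
    have h0 : ∑ i, m i = 0 := by
      apply Finset.sum_eq_zero
      intro i _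
      have := hm i
      omega
    omega
  rcases lt_or_ge (19 * M) (2 * d) with hdM | hdM
  · exact big n d M m hm hM hdM h
  · apply CLE.t n d M m hm hpos
    have hM0 : (1 : ℝ) ≤ M := by exact_mod_cast hM
    have hdM' : 2 * (d : ℝ) ≤ 19 * M := by exact_mod_cast hdM
    have hd0 : (0 : ℝ) ≤ d := Nat.cast_nonneg _
    have hs0 : 0 ≤ √((M : ℝ) * d) := Real.sqrt_nonneg _
    have hs2 : √((M : ℝ) * d) ^ 2 = (M : ℝ) * d := Real.sq_sqrt (by positivity)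
    have key : 10 * (M : ℝ) * d ≤ 3 * (M * √((M : ℝ) * d)) + 90 * (M : ℝ) ^ 2 := by
      rcases le_or_gt ((d : ℝ)) (9 * M) with h9 | h9
      · have : 0 ≤ (M : ℝ) * √((M : ℝ) * d) := by positivity
        nlinarith
      · have h3 : 3 * (M : ℝ) ≤ √((M : ℝ) * d) := by
          apply Real.le_sqrt_of_sq_le
          nlinarith
        nlinarith
    have h4 : (d : ℝ) * (3 * d + 10 * M) ≤ 3 * ∑ i, (m i : ℝ) ^ 2 := by nlinarith
    exact_mod_cast h4

end Pool.Agent.Helper79.All.CLS
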