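import Pool.Agent.Helper1.All.Dg

/-! Project ALLSYSTEMS: three-level diagrams and their linear bounds (helper79). Points side by side are
rows, rows one above the other are columns, the columns stand side by side. -/

set_option autoImplicit false

noncomputable section

namespace Pool.Agent.Helper79.All.CV

open Finset Pool.Agent.Helper1.All

/-- `lam` contains all the lattice points `(a, s)` with `a + C s < V` -/
def Bd (lam : ℕ → ℕ) (C V : ℝ) : Prop := ∀ a s : ℕ, (a : ℝ) + C * s < V → a < lam s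

theorem cv_ceil {lam : ℕ → ℕ} {C V : ℝ} (h : Bd lam C V) (i : ℕ) : ⌈V - i * C⌉₊ ≤ lam i := by
  by_contra hcon
  push Not at hcon
  have h1 := Nat.lt_ceil.1 hcon
  exact lt_irrefl _ (h (lam i) i (by linarith))

theorem cv_pt (m : ℕ) : Bd (fun s => m - s) 1 m := by
  intro a s h
  rw [one_mul] at h
  have h1 : a + s < m := by exact_mod_cast h
  show a < m - s
  omega

theorem cv_sum {κ : Type*} (K : Finset κ) (lam : κ → ℕ → ℕ) (C V : κ → ℝ)
    (h : ∀ c ∈ K, Bd (lam c) (C c) (V c)) :
    Bd (fun s => ∑ c ∈ K, lam c s) (∑ c ∈ K, C c) (∑ c ∈ K, V c) := by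
  intro a s has
  by_contra hcon
  push Not at hcon
  have h1 : ∀ c ∈ K, V c ≤ (lam c s : ℝ) + C c * s := by
    intro c hc
    by_contra hcon'
    push Not at hcon'
    exact lt_irrefl _ (h c hc (lam c s) s hcon')
  have h2 := Finset.sum_le_sum h1
  rw [Finset.sum_add_distrib, ← Finset.sum_mul] at h2
  have h3 : ((∑ c ∈ K, lam c s : ℕ) : ℝ) ≤ a := by exact_mod_cast hcon
  push_cast at h3
  linarith

theorem cv_cj {lam : ℕ → ℕ} (hl : IsDg lam) {C V : ℝ} (hC : 0 < C) (h : Bd lam C V) :
    Bd (cj lam) (1 / C) (V / C) := by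
  intro a s has
  rw [lt_cj hl a s]
  apply h
  rw [lt_div_iff₀ hC] at has
  have h1 : ((a : ℝ) + 1 / C * s) * C = s + C * a := by
    field_simp
    ring
  rw [h1] at has
  exact has

theorem isDg_sum {κ : Type*} (K : Finset κ) (lam : κ → ℕ → ℕ) (h : ∀ c ∈ K, IsDg (lam c)) :
    IsDg fun s => ∑ c ∈ K, lam c s := by
  classical
  induction K using Finset.induction_on with
  | empty =>
    refine ⟨fun a b _ => ?_, 0, ?_⟩
    · simp
    · simp
  | insert c K hc ih =>
    have h1 := isDg_add (h c (Finset.mem_insert_self c K))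
      (ih fun c' hc' => h c' (Finset.mem_insert_of_mem hc'))
    simp only [Finset.sum_insert hc]
    exact h1

/-- a family of diagrams side by side -/
theorem dg_rows {n : ℕ} {m : Fin n → ℕ} {κ : Type*} [DecidableEq κ] (K : Finset κ)
    (hK : K.Nonempty) (A : κ → Finset (Fin n)) (lam : κ → ℕ → ℕ)
    (h : ∀ c ∈ K, Dg m (A c) (lam c))
    (hd : ∀ c ∈ K, ∀ c' ∈ K, c ≠ c' → Disjoint (A c) (A c')) :
    Dg m (K.biUnion A) (fun s => ∑ c ∈ K, lam c s) := by
  classical
  induction K using Finset.induction_on with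
  | empty => exact absurd hK Finset.not_nonempty_empty
  | insert c K hc ih =>
    have h1 := h c (Finset.mem_insert_self c K)
    rcases K.eq_empty_or_nonempty with hK0 | hK0
    · subst hK0
      rw [Finset.biUnion_insert, Finset.biUnion_empty, Finset.union_empty]
      simp only [Finset.sum_insert hc, Finset.sum_empty, add_zero]
      exact h1
    · have h2 := ih hK0 (fun c' hc' => h c' (Finset.mem_insert_of_mem hc'))
        (fun c' hc' c'' hc'' => hd c' (Finset.mem_insert_of_mem hc') c''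
          (Finset.mem_insert_of_mem hc''))
      rw [Finset.biUnion_insert]
      simp only [Finset.sum_insert hc]
      refine Dg.row _ _ _ _ ?_ h1 h2
      rw [Finset.disjoint_biUnion_right]
      intro c' hc'
      apply hd c (Finset.mem_insert_self c K) c' (Finset.mem_insert_of_mem hc')
      rintro rfl
      exact hc hc'

/-- a family of diagrams one above the other -/
theorem dg_cols {n : ℕ} {m : Fin n → ℕ} {κ : Type*} [DecidableEq κ] (K : Finset κ)
    (hK : K.Nonempty) (A : κ → Finset (Fin n)) (lam : κ → ℕ → ℕ)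
    (h : ∀ c ∈ K, Dg m (A c) (lam c))
    (hd : ∀ c ∈ K, ∀ c' ∈ K, c ≠ c' → Disjoint (A c) (A c')) :
    Dg m (K.biUnion A) (cj fun a => ∑ c ∈ K, cj (lam c) a) := by
  classical
  induction K using Finset.induction_on with
  | empty => exact absurd hK Finset.not_nonempty_empty
  | insert c K hc ih =>
    have h1 := h c (Finset.mem_insert_self c K)
    rcases K.eq_empty_or_nonempty with hK0 | hK0
    · subst hK0
      rw [Finset.biUnion_insert, Finset.biUnion_empty, Finset.union_empty]
      simp only [Finset.sum_insert hc, Finset.sum_empty, add_zero]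
      rw [cj_cj (isDg_of h1)]
      exact h1
    · have h2 := ih hK0 (fun c' hc' => h c' (Finset.mem_insert_of_mem hc'))
        (fun c' hc' c'' hc'' => hd c' (Finset.mem_insert_of_mem hc') c''
          (Finset.mem_insert_of_mem hc''))
      have h3 : IsDg fun a => ∑ c ∈ K, cj (lam c) a :=
        isDg_sum K _ fun c' hc' => isDg_cj (isDg_of (h c' (Finset.mem_insert_of_mem hc')))
      rw [Finset.biUnion_insert]
      have h4 := Dg.col (A c) (K.biUnion A) _ _ (by
        rw [Finset.disjoint_biUnion_right]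
        intro c' hc'
        apply hd c (Finset.mem_insert_self c K) c' (Finset.mem_insert_of_mem hc')
        rintro rfl
        exact hc hc') h1 h2
      simp only [Finset.sum_insert hc]
      rw [cj_cj h3] at h4
      exact h4

variable {n : ℕ} (m : Fin n → ℕ)

/-- the sum of the multiplicities of a row -/
def sig (G : Finset (Fin n)) : ℝ := ∑ i ∈ G, (m i : ℝ)

/-- the resistance of a column -/
def Rc (c : Finset (Finset (Fin n))) : ℝ := ∑ G ∈ c, 1 / (G.card : ℝ)

/-- the height of a column -/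
def Uc (c : Finset (Finset (Fin n))) : ℝ := ∑ G ∈ c, sig m G / (G.card : ℝ)

/-- a row -/
theorem row_dg {G : Finset (Fin n)} (hG : G.Nonempty) :
    ∃ lam, Dg m G lam ∧ Bd lam (G.card : ℝ) (sig m G) := by
  classical
  refine ⟨fun s => ∑ i ∈ G, (m i - s), ?_, ?_⟩
  · have h1 := dg_rows (m := m) G hG (fun i => {i}) (fun i s => m i - s)
      (fun i _ => Dg.pt i) (fun i _ j _ hij => Finset.disjoint_singleton.2 hij)
    rw [Finset.biUnion_singleton_eq_self] at h1
    exact h1
  · have h2 := cv_sum G (fun i s => m i - s) (fun _ => 1) (fun i => (m i : ℝ))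
      (fun i _ => cv_pt (m i))
    rw [Finset.sum_const, nsmul_eq_mul, mul_one] at h2
    exact h2

/-- a column -/
theorem col_dg {c : Finset (Finset (Fin n))} (hc : c.Nonempty) (hG : ∀ G ∈ c, G.Nonempty)
    (hd : ∀ G ∈ c, ∀ G' ∈ c, G ≠ G' → Disjoint G G') :
    ∃ lam, Dg m (c.biUnion id) lam ∧ Bd lam (1 / Rc c) (Uc m c / Rc c) := by
  classical
  have h1 : ∀ G : Finset (Fin n), ∃ lam, G ∈ c → (Dg m G lam ∧ Bd lam (G.card : ℝ) (sig m G)) := by
    intro G
    by_cases hGc : G ∈ c
    · obtain ⟨lam, h⟩ := row_dg m (hG G hGc)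
      exact ⟨lam, fun _ => h⟩
    · exact ⟨fun _ => 0, fun h => absurd h hGc⟩
  choose lam hlam using h1
  have h2 := dg_cols (m := m) c hc id lam (fun G hGc => (hlam G hGc).1) hd
  refine ⟨_, h2, ?_⟩
  have h3 : IsDg fun a => ∑ G ∈ c, cj (lam G) a :=
    isDg_sum c _ fun G hGc => isDg_cj (isDg_of (hlam G hGc).1)
  have hpos : ∀ G ∈ c, (0 : ℝ) < (G.card : ℝ) := by
    intro G hGc
    exact_mod_cast Finset.card_pos.2 (hG G hGc)
  have h4 : Bd (fun a => ∑ G ∈ c, cj (lam G) a) (Rc c) (Uc m c) :=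
    cv_sum c (fun G => cj (lam G)) (fun G => 1 / (G.card : ℝ)) (fun G => sig m G / (G.card : ℝ))
      (fun G hGc => cv_cj (isDg_of (hlam G hGc).1) (hpos G hGc) (hlam G hGc).2)
  refine cv_cj h3 ?_ h4
  obtain ⟨G0, hG0⟩ := hc
  unfold Rc
  apply Finset.sum_pos _ ⟨G0, hG0⟩
  intro G hGc
  have := hpos G hGc
  positivity

/-- a row of columns of rows -/
theorem tree_dg {Q : Finset (Finset (Finset (Fin n)))} (hQ : Q.Nonempty)
    (hc : ∀ c ∈ Q, c.Nonempty) (hG : ∀ c ∈ Q, ∀ G ∈ c, G.Nonempty)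
    (hd : ∀ c ∈ Q, ∀ G ∈ c, ∀ c' ∈ Q, ∀ G' ∈ c', (c ≠ c' ∨ G ≠ G') → Disjoint G G') :
    ∃ A lam, Dg m A lam ∧ Bd lam (∑ c ∈ Q, 1 / Rc c) (∑ c ∈ Q, Uc m c / Rc c) := by
  classical
  have h1 : ∀ c : Finset (Finset (Fin n)), ∃ lam, c ∈ Q →
      (Dg m (c.biUnion id) lam ∧ Bd lam (1 / Rc c) (Uc m c / Rc c)) := by
    intro c
    by_cases hcQ : c ∈ Q
    · obtain ⟨lam, h⟩ := col_dg m (hc c hcQ) (hG c hcQ)
        (fun G hG G' hG' hne => hd c hcQ G hG c hcQ G' hG' (Or.inr hne))
      exact ⟨lam, fun _ => h⟩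
    · exact ⟨fun _ => 0, fun h => absurd h hcQ⟩
  choose lam hlam using h1
  have h2 := dg_rows (m := m) Q hQ (fun c => c.biUnion id) lam (fun c hcQ => (hlam c hcQ).1) (by
    intro c hcQ c' hcQ' hne
    rw [Finset.disjoint_biUnion_left]
    intro G hGc
    rw [Finset.disjoint_biUnion_right]
    intro G' hGc'
    exact hd c hcQ G hGc c' hcQ' G' hGc' (Or.inl hne))
  exact ⟨_, _, h2, cv_sum Q lam (fun c => 1 / Rc c) (fun c => Uc m c / Rc c)
    (fun c hcQ => (hlam c hcQ).2)⟩

end Pool.Agent.Helper79.All.CV
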