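import Pool.Agent.Helper1.All.Goals

set_option autoImplicit false

namespace Pool.Agent.Helper79.All.LGE

open Finset Pool.Agent.Helper1.All

theorem t : S_LGE := by
  intro n m g i
  rw [Nat.ceil_le]
  have h1 : BG m g - i * RG g = ∑ G ∈ Finset.univ.image g,
      (((∑ l ∈ gr g G, m l : ℕ) : ℝ) - i) / ((gr g G).card : ℝ) := by
    unfold BG RG
    rw [Finset.mul_sum, ← Finset.sum_sub_distrib]
    apply Finset.sum_congr rfl
    intro G _
    ring
  rw [h1]
  unfold LG
  rw [Nat.cast_sum]
  apply Finset.sum_le_sum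
  intro G hG
  rw [Finset.mem_image] at hG
  obtain ⟨l0, _, hl0⟩ := hG
  have hr : 0 < (gr g G).card := by
    apply Finset.card_pos.mpr
    exact ⟨l0, by simp [gr, hl0]⟩
  have hr' : (0 : ℝ) < (gr g G).card := by exact_mod_cast hr
  have hr1 : (1 : ℝ) ≤ (gr g G).card := by exact_mod_cast hr
  set h : ℕ := ∑ l ∈ gr g G, m l with hh
  set r : ℕ := (gr g G).card with hrr
  have hsub : Finset.range ⌈((h : ℝ) - i) / r⌉₊ ⊆
      (Finset.range (∑ l, m l)).filter (fun τ => i + 1 ≤ SG m g G τ) := by
    intro τ hτ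
    rw [Finset.mem_range, Nat.lt_ceil, lt_div_iff₀ hr'] at hτ
    have hτ' : τ * r + i < h := by
      have : ((τ * r + i : ℕ) : ℝ) < h := by
        push_cast
        linarith
      exact_mod_cast this
    have hle : h ≤ ∑ l, m l :=
      Finset.sum_le_sum_of_subset_of_nonneg (Finset.subset_univ _) (fun _ _ _ => Nat.zero_le _)
    rw [Finset.mem_filter, Finset.mem_range]
    constructor
    · have : τ ≤ τ * r := Nat.le_mul_of_pos_right _ hr
      omega
    · have h2 : h ≤ SG m g G τ + τ * r := by
        have h3 : h ≤ ∑ l ∈ gr g G, ((m l - τ) + τ) := by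
          rw [hh]
          apply Finset.sum_le_sum
          intro l _
          omega
        rw [Finset.sum_add_distrib, Finset.sum_const, smul_eq_mul] at h3
        unfold SG
        rw [mul_comm τ]
        exact h3
      omega
  have hcard := Finset.card_le_card hsub
  rw [Finset.card_range] at hcard
  have h4 : ((⌈((h : ℝ) - i) / r⌉₊ : ℕ) : ℝ) ≤
      (((Finset.range (∑ l, m l)).filter (fun τ => i + 1 ≤ SG m g G τ)).card : ℝ) := by
    exact_mod_cast hcard
  exact (Nat.le_ceil _).trans h4

end Pool.Agent.Helper79.All.LGE
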