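import Pool.Agent.Helper1.All.Goals

set_option autoImplicit false

namespace Pool.Agent.Helper79.All.LGF

open Finset Pool.Agent.Helper1.All

theorem grp {n : ℕ} (m g : Fin n → ℕ) (G K s mx : ℕ) (h : ℝ) (hh : 0 < h)
    (hs : 1 ≤ s) (hmx : ∀ i ∈ gr g G, m i + 1 ≤ mx) (hG : (HF m g G : ℝ) ≤ h) :
    (((Finset.range K).filter (fun τ => s ≤ SG m g G τ)).card : ℝ) ≤
      mx * max 0 (1 - s / h) := by
  have hs' : (1 : ℝ) ≤ s := by exact_mod_cast hs
  have hmx0 : (0 : ℝ) ≤ mx := Nat.cast_nonneg _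
  have hmax : 0 ≤ max 0 (1 - s / h) := le_max_left _ _
  have hsub : (Finset.range K).filter (fun τ => s ≤ SG m g G τ) ⊆
      Finset.range ⌊(mx : ℝ) * max 0 (1 - s / h)⌋₊ := by
    intro τ hτ
    rw [Finset.mem_filter, Finset.mem_range] at hτ
    obtain ⟨_, hτ⟩ := hτ
    unfold SG at hτ
    rw [Finset.mem_range]
    apply Nat.lt_of_succ_le
    apply Nat.le_floor
    have hGne : (gr g G).Nonempty := by
      rcases Finset.eq_empty_or_nonempty (gr g G) with h0 | h0
      · rw [h0] at hτ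
        simp at hτ
        omega
      · exact h0
    obtain ⟨i1, hi1⟩ := hGne
    have hmxpos : (0 : ℝ) < mx := by
      have := hmx i1 hi1
      have : 0 < mx := by omega
      exact_mod_cast this
    have hτ' : (s : ℝ) ≤ ∑ i ∈ gr g G, ((m i - τ : ℕ) : ℝ) := by
      have : ((s : ℕ) : ℝ) ≤ ((∑ i ∈ gr g G, (m i - τ) : ℕ) : ℝ) := by exact_mod_cast hτ
      push_cast at this
      exact this
    by_contra hcon
    push Not at hcon
    have h0 : (mx : ℝ) * (1 - s / h) < τ + 1 := by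
      have h1 : (mx : ℝ) * (1 - s / h) ≤ mx * max 0 (1 - s / h) :=
        mul_le_mul_of_nonneg_left (le_max_right _ _) hmx0
      push_cast at hcon
      linarith
    have h1 : ∀ i ∈ gr g G, ((m i - τ : ℕ) : ℝ) ≤
        (m i + 1) * max (1 - ((τ : ℝ) + 1) / mx) 0 := by
      intro i hi
      have h2 : ((m i : ℝ) + 1) ≤ mx := by exact_mod_cast hmx i hi
      have h20 : (0 : ℝ) ≤ m i + 1 := by positivity
      by_cases hc : τ ≤ m i
      · rw [Nat.cast_sub hc]
        have h3 : ((m i : ℝ) + 1) * (1 - ((τ : ℝ) + 1) / mx) ≤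
            (m i + 1) * max (1 - ((τ : ℝ) + 1) / mx) 0 :=
          mul_le_mul_of_nonneg_left (le_max_left _ _) h20
        have h4 : ((m i : ℝ) + 1) * ((τ + 1) / mx) ≤ τ + 1 := by
          rw [← mul_div_assoc, div_le_iff₀ hmxpos]
          have : (0 : ℝ) ≤ τ := Nat.cast_nonneg _
          nlinarith
        linarith
      · rw [Nat.sub_eq_zero_of_le (by omega)]
        simp only [Nat.cast_zero]
        exact mul_nonneg h20 (le_max_right _ _)
    have h5 : ∑ i ∈ gr g G, ((m i - τ : ℕ) : ℝ) ≤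
        (∑ i ∈ gr g G, ((m i : ℝ) + 1)) * max (1 - ((τ : ℝ) + 1) / mx) 0 := by
      rw [Finset.sum_mul]
      exact Finset.sum_le_sum h1
    have hG' : ∑ i ∈ gr g G, ((m i : ℝ) + 1) ≤ h := by
      refine le_trans (le_of_eq ?_) hG
      unfold HF
      push_cast
      rfl
    have h6 : (∑ i ∈ gr g G, ((m i : ℝ) + 1)) * max (1 - ((τ : ℝ) + 1) / mx) 0 ≤
        h * max (1 - ((τ : ℝ) + 1) / mx) 0 :=
      mul_le_mul_of_nonneg_right hG' (le_max_right _ _)
    have h7 : (s : ℝ) ≤ h * max (1 - ((τ : ℝ) + 1) / mx) 0 := by linarith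
    rcases le_total (1 - ((τ : ℝ) + 1) / mx) 0 with h8 | h8
    · rw [max_eq_right h8] at h7
      linarith
    · rw [max_eq_left h8] at h7
      have h9 : (s : ℝ) / h ≤ 1 - (τ + 1) / mx := by
        rw [div_le_iff₀ hh]
        linarith
      have h10 : ((τ : ℝ) + 1) / mx ≤ 1 - s / h := by linarith
      rw [div_le_iff₀ hmxpos] at h10
      linarith
  have hcard := Finset.card_le_card hsub
  rw [Finset.card_range] at hcard
  have h14 : ((⌊(mx : ℝ) * max 0 (1 - s / h)⌋₊ : ℕ) : ℝ) ≤ mx * max 0 (1 - s / h) :=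
    Nat.floor_le (mul_nonneg hmx0 hmax)
  have h15 : (((Finset.range K).filter (fun τ => s ≤ SG m g G τ)).card : ℝ) ≤
      ((⌊(mx : ℝ) * max 0 (1 - s / h)⌋₊ : ℕ) : ℝ) := by
    exact_mod_cast hcard
  linarith

theorem t : S_LGF := by
  intro n m g S₀ s hs hS hG
  unfold LG BF
  push_cast
  rw [Finset.sum_mul]
  apply Finset.sum_le_sum
  intro G hGm
  apply grp m g G _ s _ S₀ hS hs _ (hG G hGm)
  intro i hi
  exact Finset.le_sup (f := fun l => m l + 1) hi

end Pool.Agent.Helper79.All.LGF
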