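import Pool.Agent.Helper1.All.Dg
import Pool.Agent.Helper79.All.LGE
import Pool.Agent.Helper79.All.LGF

/-! Project ALLSYSTEMS: two-level diagrams (helper79). The diagram `i ↦ LG m g (i + 1)` belongs to the
class `Dg`: the points of a group are combined by `col`, the groups by `row`. -/

set_option autoImplicit false

namespace Pool.Agent.Helper79.All.DGL

open Finset Pool.Agent.Helper1.All

theorem isDg_sum {n : ℕ} (m : Fin n → ℕ) (A : Finset (Fin n)) :
    IsDg fun τ => ∑ i ∈ A, (m i - τ) := by
  refine ⟨fun a b hab => Finset.sum_le_sum fun i _ => by omega, A.sup m, ?_⟩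
  apply Finset.sum_eq_zero
  intro i hi
  have := Finset.le_sup (f := m) hi
  omega

/-- a change of the index set -/
theorem dg_map {n n' : ℕ} (m : Fin n → ℕ) (m' : Fin n' → ℕ) (ι : Fin n' → Fin n)
    (hι : Function.Injective ι) (hm : ∀ i, m' i = m (ι i)) {A : Finset (Fin n')} {lam : ℕ → ℕ}
    (h : Dg m' A lam) : Dg m (A.image ι) lam := by
  classical
  induction h with
  | pt i =>
    rw [Finset.image_singleton]
    have h1 : (fun s => m' i - s) = fun s => m (ι i) - s := by
      funext s
      rw [hm]
    rw [h1]
    exact Dg.pt (ι i)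
  | row A B lam mu hAB _ _ ih1 ih2 =>
    rw [Finset.image_union]
    exact Dg.row _ _ _ _ ((Finset.disjoint_image hι).2 hAB) ih1 ih2
  | col A B lam mu hAB _ _ ih1 ih2 =>
    rw [Finset.image_union]
    exact Dg.col _ _ _ _ ((Finset.disjoint_image hι).2 hAB) ih1 ih2

/-- a column of points -/
theorem dg_col {n : ℕ} (m : Fin n → ℕ) {A : Finset (Fin n)} (hA : A.Nonempty) :
    Dg m A (cj fun τ => ∑ i ∈ A, (m i - τ)) := by
  classical
  induction A using Finset.induction_on with
  | empty => exact absurd hA Finset.not_nonempty_empty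
  | insert a B ha ih =>
    have hpt : (cj fun τ => ∑ i ∈ ({a} : Finset (Fin n)), (m i - τ)) = fun s => m a - s := by
      have h1 : ∀ s b, b < cj (fun τ => ∑ i ∈ ({a} : Finset (Fin n)), (m i - τ)) s ↔
          b < m a - s := by
        intro s b
        rw [lt_cj (isDg_sum m {a}) b s, Finset.sum_singleton]
        omega
      funext s
      apply le_antisymm
      · by_contra hcon
        exact lt_irrefl _ ((h1 _ _).1 (not_le.1 hcon))
      · by_contra hcon
        exact lt_irrefl _ ((h1 _ _).2 (not_le.1 hcon))
    rcases B.eq_empty_or_nonempty with hB | hB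
    · subst hB
      rw [insert_empty_eq, hpt]
      exact Dg.pt a
    · have h2 := Dg.col {a} B _ _ (Finset.disjoint_singleton_left.2 ha) (Dg.pt (m := m) a) (ih hB)
      rw [← Finset.insert_eq] at h2
      refine (congrArg (Dg m (insert a B)) ?_).mp h2
      congr 1
      funext τ
      rw [← hpt, cj_cj (isDg_sum m {a}), cj_cj (isDg_sum m B), Finset.sum_insert ha]
      show (∑ i ∈ ({a} : Finset (Fin n)), (m i - τ)) + (∑ i ∈ B, (m i - τ)) = _
      rw [Finset.sum_singleton]

/-- the rows of a column, as a count of orders -/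
theorem cj_gr {n : ℕ} (m g : Fin n → ℕ) (G i : ℕ) :
    cj (fun τ => ∑ l ∈ gr g G, (m l - τ)) i =
      ((Finset.range (∑ l, m l)).filter fun τ => i + 1 ≤ SG m g G τ).card := by
  unfold cj
  rw [← Set.ncard_coe_finset]
  congr 1
  ext τ
  rw [Set.mem_ofPred_eq, Finset.mem_coe, Finset.mem_filter, Finset.mem_range]
  constructor
  · intro h
    have h' : i < ∑ l ∈ gr g G, (m l - τ) := h
    refine ⟨?_, h⟩
    by_contra hcon
    have h1 : ∑ l ∈ gr g G, (m l - τ) = 0 := by
      apply Finset.sum_eq_zero
      intro l _
      have := Finset.single_le_sum (f := m) (fun i _ => Nat.zero_le _) (Finset.mem_univ l)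
      omega
    omega
  · intro h
    exact h.2

theorem dg_rows {n : ℕ} (m g : Fin n → ℕ) (K : Finset ℕ) (hK : K.Nonempty)
    (hg : K ⊆ Finset.univ.image g) :
    Dg m (Finset.univ.filter fun l => g l ∈ K)
      (fun i => ∑ G ∈ K, ((Finset.range (∑ l, m l)).filter fun τ => i + 1 ≤ SG m g G τ).card) := by
  classical
  have hgr : ∀ G ∈ Finset.univ.image g, (gr g G).Nonempty := by
    intro G hG
    rw [Finset.mem_image] at hG
    obtain ⟨l, _, hl⟩ := hG
    refine ⟨l, ?_⟩
    unfold gr
    rw [Finset.mem_filter]
    exact ⟨Finset.mem_univ l, hl⟩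
  have hone : ∀ G ∈ Finset.univ.image g, Dg m (gr g G)
      (fun i => ((Finset.range (∑ l, m l)).filter fun τ => i + 1 ≤ SG m g G τ).card) := by
    intro G hG
    have h1 := dg_col m (hgr G hG)
    have h2 : (cj fun τ => ∑ i ∈ gr g G, (m i - τ)) =
        fun i => ((Finset.range (∑ l, m l)).filter fun τ => i + 1 ≤ SG m g G τ).card := by
      funext i
      exact cj_gr m g G i
    rw [h2] at h1
    exact h1
  induction K using Finset.induction_on with
  | empty => exact absurd hK Finset.not_nonempty_empty
  | insert a B ha ih =>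
    have haG := hone a (hg (Finset.mem_insert_self a B))
    rcases B.eq_empty_or_nonempty with hB | hB
    · subst hB
      have h3 : (Finset.univ.filter fun l => g l ∈ insert a (∅ : Finset ℕ)) = gr g a := by
        ext l
        simp [gr]
      rw [h3]
      simp only [Finset.sum_insert ha, Finset.sum_empty, add_zero]
      exact haG
    · have h4 := ih hB ((Finset.subset_insert a B).trans hg)
      have h5 : (Finset.univ.filter fun l => g l ∈ insert a B) =
          gr g a ∪ (Finset.univ.filter fun l => g l ∈ B) := by
        ext l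
        simp [gr]
      have hdisj : Disjoint (gr g a) (Finset.univ.filter fun l => g l ∈ B) := by
        rw [Finset.disjoint_left]
        intro l hl hl'
        simp only [gr, Finset.mem_filter, Finset.mem_univ, true_and] at hl hl'
        rw [hl] at hl'
        exact ha hl'
      rw [h5]
      simp only [Finset.sum_insert ha]
      exact Dg.row _ _ _ _ hdisj haG h4

/-- The two-level diagram is in the class. -/
theorem dg_LG {n : ℕ} (m g : Fin n → ℕ) (hn : 0 < n) :
    Dg m Finset.univ (fun i => LG m g (i + 1)) := by
  classical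
  have h1 := dg_rows m g (Finset.univ.image g) ⟨g ⟨0, hn⟩, Finset.mem_image_of_mem g (Finset.mem_univ _)⟩
    subset_rfl
  have h2 : (Finset.univ.filter fun l => g l ∈ Finset.univ.image g) = Finset.univ := by
    ext l
    simp
  rw [h2] at h1
  exact h1

end Pool.Agent.Helper79.All.DGL
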