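import Pool.Agent.Helper1.All.Goals

set_option autoImplicit false

namespace Pool.Agent.Helper79.All.LGS

open Finset Pool.Agent.Helper1.All

theorem tri (m N : ℕ) (h : m ≤ N) : ∑ τ ∈ Finset.range N, (m - τ) = (m + 1).choose 2 := by
  have h1 : ∑ τ ∈ Finset.range N, (m - τ) = ∑ τ ∈ Finset.range m, (m - τ) := by
    symm
    apply Finset.sum_subset
    · intro x hx
      rw [Finset.mem_range] at *
      omega
    · intro x _ hx
      rw [Finset.mem_range] at hx
      omega
  rw [h1]
  clear h1 h
  induction m with
  | zero => simp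
  | succ k ih =>
    rw [Finset.sum_range_succ']
    have h2 : ∀ τ ∈ Finset.range k, k + 1 - (τ + 1) = k - τ := by
      intro τ _
      omega
    rw [Finset.sum_congr rfl h2, ih]
    have h3 : (k + 1 + 1).choose 2 = (k + 1).choose 1 + (k + 1).choose 2 :=
      Nat.choose_succ_succ' (k + 1) 1
    rw [h3, Nat.choose_one_right]
    omega

theorem SG_le {n : ℕ} (m g : Fin n → ℕ) (G τ : ℕ) : SG m g G τ ≤ ∑ l, m l := by
  unfold SG
  refine le_trans (Finset.sum_le_sum (fun l _ => Nat.sub_le (m l) τ)) ?_
  exact Finset.sum_le_sum_of_subset_of_nonneg (Finset.subset_univ _) (fun _ _ _ => Nat.zero_le _)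

theorem card_lt' (N a : ℕ) (h : a ≤ N) : ((Finset.range N).filter (fun i => i + 1 ≤ a)).card = a := by
  have : (Finset.range N).filter (fun i => i + 1 ≤ a) = Finset.range a := by
    ext i
    rw [Finset.mem_filter, Finset.mem_range, Finset.mem_range]
    omega
  rw [this, Finset.card_range]

theorem t : S_LGS := by
  intro n m g
  refine ⟨?_, ?_, ?_⟩
  · set N := ∑ l, m l with hN
    have h1 : ∀ i, LG m g (i + 1) = ∑ G ∈ Finset.univ.image g,
        ∑ τ ∈ Finset.range N, if i + 1 ≤ SG m g G τ then 1 else 0 := by
      intro i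
      unfold LG
      apply Finset.sum_congr rfl
      intro G _
      rw [Finset.card_filter]
    simp only [h1]
    rw [Finset.sum_comm]
    have h2 : ∀ G ∈ Finset.univ.image g, ∑ i ∈ Finset.range N,
        ∑ τ ∈ Finset.range N, (if i + 1 ≤ SG m g G τ then 1 else 0) =
        ∑ l ∈ gr g G, (m l + 1).choose 2 := by
      intro G _
      rw [Finset.sum_comm]
      have h3 : ∀ τ ∈ Finset.range N, ∑ i ∈ Finset.range N,
          (if i + 1 ≤ SG m g G τ then 1 else 0) = ∑ l ∈ gr g G, (m l - τ) := by
        intro τ _
        rw [← Finset.card_filter, card_lt' N _ (SG_le m g G τ)]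
        rfl
      rw [Finset.sum_congr rfl h3, Finset.sum_comm]
      apply Finset.sum_congr rfl
      intro l _
      apply tri
      exact Finset.single_le_sum (f := m) (fun i _ => Nat.zero_le _) (Finset.mem_univ l)
    rw [Finset.sum_congr rfl h2]
    unfold gr
    rw [← Finset.sum_fiberwise_of_maps_to (s := Finset.univ) (t := Finset.univ.image g) (g := g)
      (fun x _ => Finset.mem_image_of_mem g (Finset.mem_univ x))]
  · intro i hi
    unfold LG
    apply Finset.sum_eq_zero
    intro G _
    rw [Finset.card_eq_zero, Finset.filter_eq_empty_iff]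
    intro τ _
    have := SG_le m g G τ
    omega
  · intro i
    unfold LG
    apply Finset.sum_le_sum
    intro G _
    apply Finset.card_le_card
    intro τ hτ
    rw [Finset.mem_filter] at *
    exact ⟨hτ.1, by omega⟩

end Pool.Agent.Helper79.All.LGS
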